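import Pool.Agent.Helper50.AM.TotW

/-!
# AM-07: the differences `dl` of the variances (fugacity 1)

PROOF. (1) Induction on `c`: for `cons d s`,
`dl 1 (cons d s) = VA - VM = (VM d + VA s) - ((1-p) VM d + p VA d + ww d + VM s)
= - p (VA d - VM d) - ww d + dl 1 s`, `p = pp 1 d`. Triangle inequality.
(2) Let `y c = pp 1 c * |dl 1 c|`, `pp 1 c ≤ 1/2` (`pp_le`), so by (1)
`y c ≤ 1/2 * Top (fun d => ww 1 d + y d) c`; sum over all vertices (`Tot_mono`, `Tot_mul`) and use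
`Tot (fun c => Top g c) F ≤ Tot g F` (`Tot_Top`, `Top_nonneg`) and `Tot_add`:
`Tot y F ≤ 1/2 (Tot (ww 1) F + Tot y F)`.
(3) from (1), `Top_le_Tot`, (2) and `Tot_ww_le`.
-/

namespace Pool.Agent.Helper50.AM

open BF

theorem dl_le (c : BF) :
    |dl 1 c| ≤ Top (fun d => ww 1 d + pp 1 d * |dl 1 d|) c := by
  induction c with
  | nil => simp [dl]
  | cons d s _ ihs =>
    have h1 : dl 1 (cons d s) = -(pp 1 d * dl 1 d) - ww 1 d + dl 1 s := by
      unfold dl
      rw [VA_cons, VM_cons]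
      ring
    have h2 := pp_nonneg zero_le_one d
    have h3 := ww_nonneg zero_le_one d
    rw [h1, Top_cons]
    calc |-(pp 1 d * dl 1 d) - ww 1 d + dl 1 s| ≤ |-(pp 1 d * dl 1 d) - ww 1 d| + |dl 1 s| :=
          abs_add_le _ _
      _ ≤ |-(pp 1 d * dl 1 d)| + |ww 1 d| + |dl 1 s| := by
          have := abs_sub (-(pp 1 d * dl 1 d)) (ww 1 d)
          linarith
      _ = pp 1 d * |dl 1 d| + ww 1 d + |dl 1 s| := by
          rw [abs_neg, abs_mul, abs_of_nonneg h2, abs_of_nonneg h3]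
      _ ≤ ww 1 d + pp 1 d * |dl 1 d| + Top (fun d => ww 1 d + pp 1 d * |dl 1 d|) s := by
          linarith

theorem Tot_dl_le (F : BF) : Tot (fun c => pp 1 c * |dl 1 c|) F ≤ Tot (ww 1) F := by
  have h0 : ∀ d, 0 ≤ ww 1 d + pp 1 d * |dl 1 d| := fun d =>
    add_nonneg (ww_nonneg zero_le_one d) (mul_nonneg (pp_nonneg zero_le_one d) (abs_nonneg _))
  have h1 : ∀ c, pp 1 c * |dl 1 c| ≤
      1 / 2 * Top (fun d => ww 1 d + pp 1 d * |dl 1 d|) c := by
    intro c
    have h2 := pp_le zero_le_one c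
    have h3 : pp 1 c ≤ 1 / 2 := by
      norm_num at h2
      linarith
    exact mul_le_mul h3 (dl_le c) (abs_nonneg _) (by norm_num)
  have h2 := Tot_mono h1 F
  rw [Tot_mul] at h2
  have h3 := Tot_Top (fun d => ww 1 d + pp 1 d * |dl 1 d|) F
  have h4 := Top_nonneg h0 F
  rw [Tot_add] at h3
  have h5 : Tot (fun c => ww 1 c) F = Tot (ww 1) F := rfl
  rw [h5] at h3
  linarith

theorem dl_le_N (c : BF) : |dl 1 c| ≤ 15 * N c := by
  have h0 : ∀ d, 0 ≤ ww 1 d + pp 1 d * |dl 1 d| := fun d =>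
    add_nonneg (ww_nonneg zero_le_one d) (mul_nonneg (pp_nonneg zero_le_one d) (abs_nonneg _))
  have h1 := dl_le c
  have h2 := Top_le_Tot h0 c
  rw [Tot_add] at h2
  have h5 : Tot (fun c => ww 1 c) c = Tot (ww 1) c := rfl
  rw [h5] at h2
  have h3 := Tot_dl_le c
  have h4 := Tot_ww_le (r := 1) one_pos (by norm_num) c
  linarith

end Pool.Agent.Helper50.AM
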