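import Pool.Agent.Helper50.AM.BigP
import Pool.Agent.Helper50.AM.Dl

/-!
# AM-08: `dl` is sublinear at the vertices whose `pp` is not small (fugacity 1)

PROOF. Claim Q(j), by induction on `j`: for all `ε, η > 0` there is `C` with
`|dl 1 c| ≤ C + (ε + 15 * (1/2)^j) * N c` for all `c` with `η ≤ pp 1 c`.
Q(0): `dl_le_N`. Q(j) ⟹ Q(j+1): given `ε, η`; let `η₁` be from `small_p` for `ε/60` and
`η' = min η₁ (ε/200)`; `C₁` from `big_p` for `ε/10, η'`; `C₂` from Q(j) for `ε/4, η'`. Let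
`η ≤ pp 1 c`, `L := - log (q 1 c) ≤ - log η`. By `dl_le` it is enough to bound, for every child
`d`, `ww 1 d + pp 1 d * |dl 1 d|`:
* if `pp 1 d < η'`: `ww 1 d ≤ ε/60 * Top (ww 1) d + 3 pp 1 d`, and by `dl_le`
  `pp 1 d * |dl 1 d| ≤ ε/200 * Top (fun e => ww 1 e + pp 1 e * |dl 1 e|) d`;
* if `η' ≤ pp 1 d`: `ww 1 d ≤ C₁ + ε/10 * N d`, and `pp 1 d * |dl 1 d| ≤ 1/2 |dl 1 d| ≤
  1/2 (C₂ + (ε/4 + 15 (1/2)^j) N d)`.
In both cases it is at most the sum of all bounds, the constants multiplied by the indicator of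
`η' ≤ pp 1 d`. Sum over the children of `c` as in AM-06: the total is at most
`ε/60 * 15/2 N c + 3 L + ε/200 * 15 N c + L/η' (C₁ + C₂) + (ε/10 + ε/8 + 15 (1/2)^(j+1)) N c`
and `1/8 + 3/40 + 1/10 + 1/8 < 1` (`Tot (ww 1 + y) c ≤ 15 N c` by `Tot_add`, `Tot_dl_le`,
`Tot_ww_le`).
-/

namespace Pool.Agent.Helper50.AM

open BF

theorem big_dl_aux (j : ℕ) : ∀ {ε η : ℝ}, 0 < ε → 0 < η → ∃ C : ℝ, 0 ≤ C ∧
    ∀ c : BF, η ≤ pp 1 c → |dl 1 c| ≤ C + (ε + 15 * (1 / 2) ^ j) * N c := by
  have hr : (0 : ℝ) < 1 := one_pos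
  have hr1 : (1 : ℝ) ≤ 11 / 10 := by norm_num
  have hw0 : ∀ d : BF, 0 ≤ ww 1 d := fun d => ww_nonneg zero_le_one d
  have hp0 : ∀ d : BF, 0 ≤ pp 1 d := fun d => pp_nonneg zero_le_one d
  have hy0 : ∀ d : BF, 0 ≤ ww 1 d + pp 1 d * |dl 1 d| := fun d =>
    add_nonneg (hw0 d) (mul_nonneg (hp0 d) (abs_nonneg _))
  have hph : ∀ d : BF, pp 1 d ≤ 1 / 2 := by
    intro d
    have h2 := pp_le zero_le_one d
    norm_num at h2
    linarith
  induction j with
  | zero =>
    intro ε η hε hη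
    refine ⟨0, le_rfl, fun c _ => ?_⟩
    have h1 := dl_le_N c
    have h4 : (0 : ℝ) ≤ N c := Nat.cast_nonneg _
    rw [pow_zero, mul_one]
    nlinarith [mul_nonneg hε.le h4]
  | succ j ih =>
    intro ε η hε hη
    obtain ⟨η₁, hη₁, hsmall⟩ := small_p (ε := ε / 60) (by positivity)
    set η' : ℝ := min η₁ (ε / 200) with hη'
    have hη'0 : 0 < η' := lt_min hη₁ (by positivity)
    obtain ⟨C₁, hC₁, hbigp⟩ := big_p (ε := ε / 10) (η := η') (by positivity) hη'0
    obtain ⟨C₂, hC₂, hbig⟩ := ih (ε := ε / 4) (η := η') (by positivity) hη'0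
    set L : ℝ := max (- Real.log (η / 1)) 0 with hL
    have hL0 : 0 ≤ L := le_max_right _ _
    refine ⟨3 * L + (C₁ + C₂) * (L / η'), by positivity, fun c hc => ?_⟩
    have hq : - Real.log (q 1 c) ≤ L := le_trans (neg_log_q_le hr hη c hc) (le_max_left _ _)
    have hNc : (0 : ℝ) ≤ N c := Nat.cast_nonneg _
    set P : ℝ := (1 / 2 : ℝ) ^ j with hP
    have hP0 : 0 ≤ P := by positivity
    set K : ℝ := ε / 10 + 1 / 2 * (ε / 4 + 15 * P) with hK
    have hK0 : 0 ≤ K := by positivity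
    set y : BF → ℝ := fun e => ww 1 e + pp 1 e * |dl 1 e| with hy
    have hind : ∀ d : BF, (0 : ℝ) ≤ (if η' ≤ pp 1 d then 1 else 0) := by
      intro d; split_ifs <;> norm_num
    have hd : ∀ d : BF, y d ≤ (ε / 60 * Top (ww 1) d + 3 * pp 1 d + ε / 200 * Top y d)
        + ((C₁ + C₂) * (if η' ≤ pp 1 d then 1 else 0) + K * N d) := by
      intro d
      have hNd : (0 : ℝ) ≤ N d := Nat.cast_nonneg _
      have hT : 0 ≤ Top (ww 1) d := Top_nonneg hw0 d
      have hTy : 0 ≤ Top y d := Top_nonneg hy0 d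
      have hp : 0 ≤ pp 1 d := hp0 d
      have hKN : 0 ≤ K * N d := mul_nonneg hK0 hNd
      have hεT : 0 ≤ ε / 60 * Top (ww 1) d := by positivity
      have hεy : 0 ≤ ε / 200 * Top y d := by positivity
      by_cases h : η' ≤ pp 1 d
      · rw [if_pos h, mul_one]
        have h1 := hbigp d h
        have h2 := hbig d h
        have h3 : pp 1 d * |dl 1 d| ≤ 1 / 2 * (C₂ + (ε / 4 + 15 * P) * N d) :=
          mul_le_mul (hph d) h2 (abs_nonneg _) (by norm_num)
        have h4 : y d = ww 1 d + pp 1 d * |dl 1 d| := rfl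
        have h5 : K * N d = ε / 10 * N d + 1 / 2 * ((ε / 4 + 15 * P) * N d) := by
          rw [hK]; ring
        linarith
      · rw [if_neg h, mul_zero]
        have h' := not_le.1 h
        have h1 := hsmall d (lt_of_lt_of_le h' (min_le_left _ _))
        have h2 : pp 1 d ≤ ε / 200 := (lt_of_lt_of_le h' (min_le_right _ _)).le
        have h3 : pp 1 d * |dl 1 d| ≤ ε / 200 * Top y d :=
          mul_le_mul h2 (dl_le d) (abs_nonneg _) (by positivity)
        have h4 : y d = ww 1 d + pp 1 d * |dl 1 d| := rfl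
        linarith
    have hsum : Top y c ≤ (ε / 60 * Top (fun d => Top (ww 1) d) c + 3 * Top (pp 1) c
          + ε / 200 * Top (fun d => Top y d) c)
        + ((C₁ + C₂) * Top (fun d => if η' ≤ pp 1 d then 1 else 0) c
          + K * Top (fun d => (N d : ℝ)) c) := by
      have h1 := Top_mono hd c
      have h2 := Top_add (fun d => ε / 60 * Top (ww 1) d + 3 * pp 1 d + ε / 200 * Top y d)
        (fun d => (C₁ + C₂) * (if η' ≤ pp 1 d then 1 else 0) + K * N d) c
      have h3 := Top_add (fun d => ε / 60 * Top (ww 1) d + 3 * pp 1 d)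
        (fun d => ε / 200 * Top y d) c
      have h3' := Top_add (fun d => ε / 60 * Top (ww 1) d) (fun d => 3 * pp 1 d) c
      have h4 := Top_add (fun d => (C₁ + C₂) * (if η' ≤ pp 1 d then (1 : ℝ) else 0))
        (fun d => K * (N d : ℝ)) c
      have h5 := Top_mul (ε / 60) (fun d => Top (ww 1) d) c
      have h6 := Top_mul 3 (pp 1) c
      have h6' := Top_mul (ε / 200) (fun d => Top y d) c
      have h7 := Top_mul (C₁ + C₂) (fun d => if η' ≤ pp 1 d then (1 : ℝ) else 0) c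
      have h8 := Top_mul K (fun d => (N d : ℝ)) c
      linarith
    have hA : Top (fun d => Top (ww 1) d) c ≤ 15 / 2 * N c := by
      have h1 := Top_le_Tot (g := fun d => Top (ww 1) d) (fun d => Top_nonneg hw0 d) c
      have h2 := Tot_Top (ww 1) c
      have h3 := Top_nonneg hw0 c
      have h4 := Tot_ww_le hr hr1 c
      linarith
    have hA' : Top (fun d => Top y d) c ≤ 15 * N c := by
      have h1 := Top_le_Tot (g := fun d => Top y d) (fun d => Top_nonneg hy0 d) c
      have h2 := Tot_Top y c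
      have h3 := Top_nonneg hy0 c
      have h4 := Tot_ww_le hr hr1 c
      have h5 := Tot_dl_le c
      have h6 : Tot y c = Tot (fun e => ww 1 e) c + Tot (fun e => pp 1 e * |dl 1 e|) c :=
        Tot_add _ _ _
      have h7 : Tot (fun e => ww 1 e) c = Tot (ww 1) c := rfl
      linarith
    have hB : Top (pp 1) c ≤ L := le_trans (Top_pp_le hr c) hq
    have hC : Top (fun d => if η' ≤ pp 1 d then (1 : ℝ) else 0) c ≤ L / η' := by
      rw [le_div_iff₀ hη'0, mul_comm]
      exact le_trans (cnt_le hr hη'0 c) hq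
    have hD : Top (fun d => (N d : ℝ)) c ≤ N c := by
      have h1 := Top_N c
      have h2 := Top_mono (g := fun d => (N d : ℝ)) (h := fun d => 1 + (N d : ℝ))
        (fun d => by linarith) c
      linarith
    have hstep := dl_le c
    have e1 : ε / 60 * Top (fun d => Top (ww 1) d) c ≤ ε / 60 * (15 / 2 * N c) :=
      mul_le_mul_of_nonneg_left hA (by positivity)
    have e1' : ε / 200 * Top (fun d => Top y d) c ≤ ε / 200 * (15 * N c) :=
      mul_le_mul_of_nonneg_left hA' (by positivity)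
    have e2 : (C₁ + C₂) * Top (fun d => if η' ≤ pp 1 d then (1 : ℝ) else 0) c
        ≤ (C₁ + C₂) * (L / η') :=
      mul_le_mul_of_nonneg_left hC (by positivity)
    have e3 : K * Top (fun d => (N d : ℝ)) c ≤ K * N c :=
      mul_le_mul_of_nonneg_left hD hK0
    have e4 : ε / 60 * (15 / 2 * N c) + ε / 200 * (15 * N c) + K * N c
        ≤ (ε + 15 * (1 / 2) ^ (j + 1)) * N c := by
      have : ε / 60 * (15 / 2) + ε / 200 * 15 + K ≤ ε + 15 * (1 / 2) ^ (j + 1) := by
        rw [hK, pow_succ]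
        linarith
      calc ε / 60 * (15 / 2 * N c) + ε / 200 * (15 * N c) + K * N c
          = (ε / 60 * (15 / 2) + ε / 200 * 15 + K) * N c := by ring
        _ ≤ _ := mul_le_mul_of_nonneg_right this hNc
    have e5 : |dl 1 c| ≤ Top y c := hstep
    linarith

theorem big_dl {ε η : ℝ} (hε : 0 < ε) (hη : 0 < η) : ∃ C : ℝ, 0 ≤ C ∧ ∀ c : BF, η ≤ pp 1 c →
    |dl 1 c| ≤ C + ε * N c := by
  obtain ⟨j, hj⟩ := exists_pow_lt_of_lt_one (x := ε / 30) (by positivity)
    (show (1 / 2 : ℝ) < 1 by norm_num)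
  obtain ⟨C, hC, h⟩ := big_dl_aux j (ε := ε / 2) (η := η) (by positivity) hη
  refine ⟨C, hC, fun c hc => ?_⟩
  have h1 := h c hc
  have h2 : (ε / 2 + 15 * (1 / 2) ^ j) * (N c : ℝ) ≤ ε * N c := by
    apply mul_le_mul_of_nonneg_right _ (Nat.cast_nonneg _)
    linarith
  linarith

end Pool.Agent.Helper50.AM
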