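import Pool.Agent.Helper50.AM.OneStep

/-!
# AM-05: vertices with small `pp` (fugacity 1)

PROOF. By `one_step_mul` (AM-03) with `r = 1`, and `0 ≤ 1 - p ≤ 1`:
`ww ≤ 3/2 * (p * U) * W + 3 p`, where `p = pp 1 c`, `U = Top (fun d => 1 * q 1 d) c`,
`W = Top (ww 1) c ≥ 0`. So it is enough to find `η` with `p U ≤ 2/3 ε` whenever `p < η`.
`Top_u_le` with `r = 1`: `log 2 * U ≤ - log Q`, `Q = q 1 c`, and `p = Q / (1 + Q) ≤ Q`, so
`p U ≤ Q * (- log Q) / log 2 = Real.negMulLog Q / log 2`. `p < η ≤ 1/2` gives `Q < 2 η`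
(`Q = p (1 + Q) ≤ 2 p`). Since `Real.negMulLog` is continuous and `negMulLog 0 = 0`
(`Real.continuous_negMulLog`), there is `δ > 0` with `|negMulLog Q| ≤ 2/3 ε log 2` for
`0 ≤ Q < δ`; take `η = min (1/2) (δ/2)`.
-/

namespace Pool.Agent.Helper50.AM

open BF

theorem small_p {ε : ℝ} (hε : 0 < ε) : ∃ η : ℝ, 0 < η ∧ ∀ c : BF, pp 1 c < η →
    ww 1 c ≤ ε * Top (ww 1) c + 3 * pp 1 c := by
  have hl2 : 0 < Real.log 2 := Real.log_pos (by norm_num)
  have hcont : Filter.Tendsto Real.negMulLog (nhds 0) (nhds 0) := by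
    have h1 := Real.continuous_negMulLog.tendsto 0
    rwa [Real.negMulLog_zero] at h1
  have hpos : 0 < 2 / 3 * ε * Real.log 2 := by positivity
  obtain ⟨δ, hδ, hδ'⟩ := Metric.tendsto_nhds_nhds.1 hcont _ hpos
  refine ⟨min (1 / 2) (δ / 2), by positivity, fun c hc => ?_⟩
  have hQ := q_pos (r := 1) zero_le_one c
  have hQ1 := q_le_one (r := 1) zero_le_one c
  have hp := pp_nonneg (r := 1) zero_le_one c
  have hp1 := pp_lt_one (r := 1) zero_le_one c
  have hpq : pp 1 c = q 1 c / (1 + q 1 c) := by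
    unfold pp
    rw [one_mul]
  have hpQ : pp 1 c ≤ q 1 c := by
    rw [hpq, div_le_iff₀ (by linarith)]
    nlinarith
  have hQp : q 1 c ≤ 2 * pp 1 c := by
    have h1 : pp 1 c * (1 + q 1 c) = q 1 c := by
      rw [hpq]
      field_simp
    nlinarith
  have hQδ : q 1 c < δ := by
    have h1 : pp 1 c < δ / 2 := lt_of_lt_of_le hc (min_le_right _ _)
    linarith
  have hW : 0 ≤ Top (ww 1) c := Top_nonneg (fun d => ww_nonneg zero_le_one d) c
  have hU : 0 ≤ Top (fun d => 1 * q 1 d) c :=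
    Top_nonneg (fun d => by have := q_pos (r := 1) zero_le_one d; linarith) c
  have hUQ := Top_u_le (r := 1) one_pos c
  have h3 : |Real.negMulLog (q 1 c)| < 2 / 3 * ε * Real.log 2 := by
    have h4 := hδ' (x := q 1 c) (by
      rw [Real.dist_eq, sub_zero, abs_of_pos hQ]
      exact hQδ)
    rwa [Real.dist_eq, sub_zero] at h4
  have h5 : pp 1 c * Top (fun d => 1 * q 1 d) c ≤ 2 / 3 * ε := by
    have h6 : Real.log 2 * Top (fun d => 1 * q 1 d) c ≤ - Real.log (q 1 c) := by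
      have h7 : (1 : ℝ) + 1 = 2 := by norm_num
      rw [h7, div_one] at hUQ
      exact hUQ
    have h8 : pp 1 c * (Real.log 2 * Top (fun d => 1 * q 1 d) c)
        ≤ q 1 c * (- Real.log (q 1 c)) := by
      apply mul_le_mul hpQ h6 (by positivity) hQ.le
    have h9 : q 1 c * (- Real.log (q 1 c)) = Real.negMulLog (q 1 c) := by
      unfold Real.negMulLog
      ring
    have h10 := le_abs_self (Real.negMulLog (q 1 c))
    have h11 : Real.log 2 * (pp 1 c * Top (fun d => 1 * q 1 d) c)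
        ≤ Real.log 2 * (2 / 3 * ε) := by
      nlinarith
    exact le_of_mul_le_mul_left h11 hl2
  have h12 := one_step_mul (r := 1) one_pos c
  have h13 : pp 1 c * (1 - pp 1 c) *
      (3 / 2 * Top (fun d => 1 * q 1 d) c * Top (ww 1) c + 3)
      ≤ pp 1 c * (3 / 2 * Top (fun d => 1 * q 1 d) c * Top (ww 1) c + 3) := by
    apply mul_le_mul_of_nonneg_right _ (by positivity)
    nlinarith
  have h14 : pp 1 c * (3 / 2 * Top (fun d => 1 * q 1 d) c * Top (ww 1) c + 3)
      = 3 / 2 * (pp 1 c * Top (fun d => 1 * q 1 d) c) * Top (ww 1) c + 3 * pp 1 c := by ring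
  have h15 : 3 / 2 * (pp 1 c * Top (fun d => 1 * q 1 d) c) * Top (ww 1) c
      ≤ ε * Top (ww 1) c := by
    apply mul_le_mul_of_nonneg_right _ hW
    linarith
  linarith

end Pool.Agent.Helper50.AM
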