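import Pool.Agent.Helper50.AM.TotW
import Pool.Agent.Helper50.AM.SmallP

/-!
# AM-06: `ww` is sublinear at the vertices whose `pp` is not small (fugacity 1)

PROOF. Claim Q(j), by induction on `j`: for all `ε, η > 0` there is `C` with
`ww 1 c ≤ C + (ε + 8 * (9/10)^j) * N c` for all `c` with `η ≤ pp 1 c`. The theorem follows with
`ε/2` and `8 * (9/10)^j ≤ ε/2`.

Q(0): `ww 1 c ≤ 9/10 Top (ww 1) c + 3/4 ≤ Tot (ww 1) c + 3/4 ≤ 15/2 N c + 3/4` (`one_step`,
`Top_le_Tot`, `Tot_ww_le`).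

Q(j) ⟹ Q(j+1): given `ε, η`; let `η'` be from `small_p` for `ε/20`, and `C'` from Q(j) for
`ε/2, η'`. Let `c` with `η ≤ pp 1 c`, so `L := - log (q 1 c) ≤ - log η` (`neg_log_q_le`). For every
child `d` of `c`: `ww 1 d ≤ (ε/20 * Top (ww 1) d + 3 * pp 1 d) +
(if η' ≤ pp 1 d then 1 else 0) * C'' + (ε/2 + 8 (9/10)^j) * N d`, where `C'' = max C' 0`
(cases `pp 1 d < η'`, `≥ η'`; all terms are `≥ 0`). Sum over the children (`Top_mono`, `Top_add`,
`Top_mul`): `Top (Top (ww 1)) c ≤ Tot (ww 1) c ≤ 15/2 N c` (as `Top g' c ≤ Tot g' c` with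
`g' = Top (ww 1)`, and `Tot_Top`), `Top (pp 1) c ≤ L`, `Top (indicator) c ≤ L / η'` (`cnt_le`),
`Top N c ≤ N c` (`Top_N`). Then `one_step` gives
`ww 1 c ≤ 9/10 * (ε/20 * 15/2 * N c + 3 L + L/η' * C'' + (ε/2 + 8 (9/10)^j) N c) + 3/4` and
`9/10 * (15/40 + 1/2) ε ≤ ε`.
-/

namespace Pool.Agent.Helper50.AM

open BF

theorem big_p_aux (j : ℕ) : ∀ {ε η : ℝ}, 0 < ε → 0 < η → ∃ C : ℝ, 0 ≤ C ∧ ∀ c : BF, η ≤ pp 1 c →
    ww 1 c ≤ C + (ε + 8 * (9 / 10) ^ j) * N c := by
  have hr : (0 : ℝ) < 1 := one_pos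
  have hr1 : (1 : ℝ) ≤ 11 / 10 := by norm_num
  have hw0 : ∀ d : BF, 0 ≤ ww 1 d := fun d => ww_nonneg zero_le_one d
  induction j with
  | zero =>
    intro ε η hε hη
    refine ⟨3 / 4, by norm_num, fun c _ => ?_⟩
    have h1 := one_step hr hr1 c
    have h2 := Top_le_Tot hw0 c
    have h3 := Tot_ww_le hr hr1 c
    have h4 : (0 : ℝ) ≤ N c := Nat.cast_nonneg _
    rw [pow_zero, mul_one]
    nlinarith [mul_nonneg hε.le h4]
  | succ j ih =>
    intro ε η hε hη
    obtain ⟨η', hη', hsmall⟩ := small_p (ε := ε / 20) (by positivity)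
    obtain ⟨C', hC', hbig⟩ := ih (ε := ε / 2) (η := η') (by positivity) hη'
    set L : ℝ := max (- Real.log (η / 1)) 0 with hL
    have hL0 : 0 ≤ L := le_max_right _ _
    refine ⟨9 / 10 * (3 * L + C' * (L / η')) + 3 / 4, by positivity, fun c hc => ?_⟩
    have hq : - Real.log (q 1 c) ≤ L := le_trans (neg_log_q_le hr hη c hc) (le_max_left _ _)
    have hNc : (0 : ℝ) ≤ N c := Nat.cast_nonneg _
    set K : ℝ := ε / 2 + 8 * (9 / 10) ^ j with hK
    have hK0 : 0 ≤ K := by positivity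
    have hind : ∀ d : BF, (0 : ℝ) ≤ (if η' ≤ pp 1 d then 1 else 0) := by
      intro d; split_ifs <;> norm_num
    have hd : ∀ d : BF, ww 1 d ≤ (ε / 20 * Top (ww 1) d + 3 * pp 1 d)
        + (C' * (if η' ≤ pp 1 d then 1 else 0) + K * N d) := by
      intro d
      have hNd : (0 : ℝ) ≤ N d := Nat.cast_nonneg _
      have hT : 0 ≤ Top (ww 1) d := Top_nonneg hw0 d
      have hp : 0 ≤ pp 1 d := pp_nonneg zero_le_one d
      have hKN : 0 ≤ K * N d := mul_nonneg hK0 hNd
      have hεT : 0 ≤ ε / 20 * Top (ww 1) d := by positivity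
      by_cases h : η' ≤ pp 1 d
      · rw [if_pos h, mul_one]
        have := hbig d h
        linarith
      · rw [if_neg h, mul_zero]
        have := hsmall d (not_le.1 h)
        linarith
    have hsum : Top (ww 1) c ≤ (ε / 20 * Top (fun d => Top (ww 1) d) c + 3 * Top (pp 1) c)
        + (C' * Top (fun d => if η' ≤ pp 1 d then 1 else 0) c + K * Top (fun d => (N d : ℝ)) c) := by
      have h1 := Top_mono hd c
      have h2 := Top_add (fun d => ε / 20 * Top (ww 1) d + 3 * pp 1 d)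
        (fun d => C' * (if η' ≤ pp 1 d then 1 else 0) + K * N d) c
      have h3 := Top_add (fun d => ε / 20 * Top (ww 1) d) (fun d => 3 * pp 1 d) c
      have h4 := Top_add (fun d => C' * (if η' ≤ pp 1 d then (1 : ℝ) else 0))
        (fun d => K * (N d : ℝ)) c
      have h5 := Top_mul (ε / 20) (fun d => Top (ww 1) d) c
      have h6 := Top_mul 3 (pp 1) c
      have h7 := Top_mul C' (fun d => if η' ≤ pp 1 d then (1 : ℝ) else 0) c
      have h8 := Top_mul K (fun d => (N d : ℝ)) c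
      linarith
    have hA : Top (fun d => Top (ww 1) d) c ≤ 15 / 2 * N c := by
      have h1 := Top_le_Tot (g := fun d => Top (ww 1) d) (fun d => Top_nonneg hw0 d) c
      have h2 := Tot_Top (ww 1) c
      have h3 := Top_nonneg hw0 c
      have h4 := Tot_ww_le hr hr1 c
      linarith
    have hB : Top (pp 1) c ≤ L := le_trans (Top_pp_le hr c) hq
    have hC : Top (fun d => if η' ≤ pp 1 d then (1 : ℝ) else 0) c ≤ L / η' := by
      rw [le_div_iff₀ hη', mul_comm]
      exact le_trans (cnt_le hr hη' c) hq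
    have hD : Top (fun d => (N d : ℝ)) c ≤ N c := by
      have h1 := Top_N c
      have h2 := Top_mono (g := fun d => (N d : ℝ)) (h := fun d => 1 + (N d : ℝ))
        (fun d => by linarith) c
      linarith
    have hstep := one_step hr hr1 c
    have e1 : ε / 20 * Top (fun d => Top (ww 1) d) c ≤ ε / 20 * (15 / 2 * N c) :=
      mul_le_mul_of_nonneg_left hA (by positivity)
    have e2 : C' * Top (fun d => if η' ≤ pp 1 d then (1 : ℝ) else 0) c ≤ C' * (L / η') :=
      mul_le_mul_of_nonneg_left hC hC'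
    have e3 : K * Top (fun d => (N d : ℝ)) c ≤ K * N c :=
      mul_le_mul_of_nonneg_left hD hK0
    have e4 : 9 / 10 * (ε / 20 * (15 / 2 * N c) + K * N c)
        ≤ (ε + 8 * (9 / 10) ^ (j + 1)) * N c := by
      have : 9 / 10 * (ε / 20 * (15 / 2) + K) ≤ ε + 8 * (9 / 10) ^ (j + 1) := by
        rw [hK, pow_succ]
        linarith
      calc 9 / 10 * (ε / 20 * (15 / 2 * N c) + K * N c)
          = (9 / 10 * (ε / 20 * (15 / 2) + K)) * N c := by ring
        _ ≤ _ := mul_le_mul_of_nonneg_right this hNc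
    linarith

theorem big_p {ε η : ℝ} (hε : 0 < ε) (hη : 0 < η) : ∃ C : ℝ, 0 ≤ C ∧ ∀ c : BF, η ≤ pp 1 c →
    ww 1 c ≤ C + ε * N c := by
  obtain ⟨j, hj⟩ := exists_pow_lt_of_lt_one (x := ε / 16) (by positivity)
    (show (9 / 10 : ℝ) < 1 by norm_num)
  obtain ⟨C, hC, h⟩ := big_p_aux j (ε := ε / 2) (η := η) (by positivity) hη
  refine ⟨C, hC, fun c hc => ?_⟩
  have h1 := h c hc
  have h2 : (ε / 2 + 8 * (9 / 10) ^ j) * (N c : ℝ) ≤ ε * N c := by
    apply mul_le_mul_of_nonneg_right _ (Nat.cast_nonneg _)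
    linarith
  linarith

end Pool.Agent.Helper50.AM
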