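import Pool.Agent.Helper50.AM.Defs

/-!
# AM-01: Cauchy-Schwarz over the roots

PROOF. Induction on `F`. For `nil` both sides are `0`. For `cons c s` put `u = r * q r c > 0`,
`a = pp r c * DD r c`, `w = ww r c`, `b = E r s`, `U = Top (fun c => r * q r c) s`,
`W = Top (ww r) s` (all of `u, w, U, W` are `≥ 0`). Then `pp r c = u / (1 + u)`,
`1 - pp r c = 1 / (1 + u)` (`one_sub_pp`), so `pp ^ 2 = u * (pp * (1 - pp))` and `a ^ 2 = u * w`;
by induction `b ^ 2 ≤ U * W`. Hence
`(a + b) ^ 2 ≤ (u + U) * (w + W)`: indeed `(2 a b) ^ 2 ≤ 4 u w U W ≤ (u W + U w) ^ 2` and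
`u W + U w ≥ 0`, so `2 a b ≤ u W + U w` (`abs_le_of_sq_le_sq'` or `Real.sqrt`).
-/

namespace Pool.Agent.Helper50.AM

open BF

private theorem le_of_sq_le_sq_of_nonneg' {x y : ℝ} (h : x ^ 2 ≤ y ^ 2) (hy : 0 ≤ y) : x ≤ y :=
  (abs_le_of_sq_le_sq' h hy).2

theorem E_sq_le {r : ℝ} (hr : 0 < r) (F : BF) :
    E r F ^ 2 ≤ Top (fun c => r * q r c) F * Top (ww r) F := by
  induction F with
  | nil => simp
  | cons c s _ ihs =>
    rw [E_cons, Top_cons, Top_cons]
    have hq := q_pos hr.le c
    have hw := ww_nonneg hr.le c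
    have hU : 0 ≤ Top (fun c => r * q r c) s :=
      Top_nonneg (fun d => mul_nonneg hr.le (q_pos hr.le d).le) s
    have hW : 0 ≤ Top (ww r) s := Top_nonneg (ww_nonneg hr.le) s
    have h1 := one_sub_pp hr.le c
    have hu : 0 < r * q r c := mul_pos hr hq
    have hpp : pp r c = r * q r c * (1 - pp r c) := by
      rw [h1]; unfold pp; ring
    have ha : (pp r c * DD r c) ^ 2 = (r * q r c) * ww r c := by
      unfold ww
      calc (pp r c * DD r c) ^ 2 = pp r c * pp r c * DD r c ^ 2 := by ring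
        _ = (r * q r c * (1 - pp r c)) * pp r c * DD r c ^ 2 := by rw [← hpp]
        _ = (r * q r c) * (pp r c * (1 - pp r c) * DD r c ^ 2) := by ring
    set a := pp r c * DD r c with hadef
    set b := E r s with hbdef
    set u := r * q r c with hudef
    set w := ww r c with hwdef
    set U := Top (fun c => r * q r c) s with hUdef
    set W := Top (ww r) s with hWdef
    have hcross : 2 * (a * b) ≤ u * W + U * w := by
      have h0 : 0 ≤ u * W + U * w := by positivity
      apply le_of_sq_le_sq_of_nonneg' _ h0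
      have h2 : (2 * (a * b)) ^ 2 = 4 * (a ^ 2) * b ^ 2 := by ring
      rw [h2, ha]
      have h3 : 4 * (u * w) * b ^ 2 ≤ 4 * (u * w) * (U * W) :=
        mul_le_mul_of_nonneg_left ihs (by positivity)
      have h4 : 4 * (u * w) * (U * W) ≤ (u * W + U * w) ^ 2 := by
        nlinarith [sq_nonneg (u * W - U * w)]
      exact h3.trans h4
    nlinarith [ihs, ha, hcross]

end Pool.Agent.Helper50.AM
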