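import Pool.Agent.Helper50.AM.TotW

/-!
# AM-12: the characteristic function against the Gaussian

PROOF. (1) `‖cM t F‖ ≤ 1`, `‖cA t F‖ ≤ 1`: simultaneous induction with `cM_cons`, `cA_cons`
(`‖exp (x * I)‖ = 1`, `(1-p) + p = 1`).
(2) Simultaneous induction. For complex numbers of norm `≤ 1`:
`‖x y - x' y'‖ ≤ ‖x - x'‖ + ‖y - y'‖`. `cA`: `VA (cons c s) = VM c + VA s` and
`exp (-(a + b)) = exp (-a) exp (-b)`. `cM (cons c s) = B * cM s` with
`B = (1-p) e^{-itpD} cM c + p e^{it(1-p)D} cA c`, `‖B‖ ≤ 1`; with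
`B' = (1-p) e^{-itpD} e^{-VM c t²/2} + p e^{it(1-p)D} e^{-VA c t²/2}` one has
`‖B - B'‖ ≤ (1-p) Tot loc c + p Tot loc c = Tot loc c`, and
`‖B' - e^{-((1-p) VM c + p VA c + p (1-p) D²) t²/2}‖ = loc t c` by definition (`ww = p(1-p)D²`).
`VM, VA ≥ 0` from `VM_VA_le`.
-/

namespace Pool.Agent.Helper50.AM

open BF

private theorem norm_ofReal_of_nonneg' {a : ℝ} (ha : 0 ≤ a) : ‖((a : ℝ) : ℂ)‖ = a := by
  rw [Complex.norm_real, Real.norm_of_nonneg ha]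

private theorem norm_term {p x : ℝ} {z : ℂ} (hp : 0 ≤ p) (hz : ‖z‖ ≤ 1) :
    ‖((p : ℝ) : ℂ) * Complex.exp (((x : ℝ) : ℂ) * Complex.I) * z‖ ≤ p := by
  rw [norm_mul, norm_mul, norm_ofReal_of_nonneg' hp, Complex.norm_exp_ofReal_mul_I, mul_one]
  calc p * ‖z‖ ≤ p * 1 := mul_le_mul_of_nonneg_left hz hp
    _ = p := mul_one p

private theorem norm_term_sub {p x e : ℝ} {z w : ℂ} (hp : 0 ≤ p) (hz : ‖z - w‖ ≤ e) :
    ‖((p : ℝ) : ℂ) * Complex.exp (((x : ℝ) : ℂ) * Complex.I) * z -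
      ((p : ℝ) : ℂ) * Complex.exp (((x : ℝ) : ℂ) * Complex.I) * w‖ ≤ p * e := by
  rw [← mul_sub, norm_mul, norm_mul, norm_ofReal_of_nonneg' hp, Complex.norm_exp_ofReal_mul_I,
    mul_one]
  exact mul_le_mul_of_nonneg_left hz hp

private theorem norm_prod_sub {x y x' y' : ℂ} (hy : ‖y‖ ≤ 1) (hx' : ‖x'‖ ≤ 1) :
    ‖x * y - x' * y'‖ ≤ ‖x - x'‖ + ‖y - y'‖ := by
  have h1 : x * y - x' * y' = (x - x') * y + x' * (y - y') := by ring
  rw [h1]
  refine (norm_add_le _ _).trans ?_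
  rw [norm_mul, norm_mul]
  have h2 : ‖x - x'‖ * ‖y‖ ≤ ‖x - x'‖ * 1 := mul_le_mul_of_nonneg_left hy (norm_nonneg _)
  have h3 : ‖x'‖ * ‖y - y'‖ ≤ 1 * ‖y - y'‖ := mul_le_mul_of_nonneg_right hx' (norm_nonneg _)
  linarith

private theorem norm_gauss {v t : ℝ} (hv : 0 ≤ v) :
    ‖((Real.exp (-(v * t ^ 2 / 2)) : ℝ) : ℂ)‖ ≤ 1 := by
  rw [norm_ofReal_of_nonneg' (Real.exp_pos _).le, Real.exp_le_one_iff]
  have : 0 ≤ v * t ^ 2 / 2 := by positivity
  linarith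

theorem norm_cM_cA_le (t : ℝ) (F : BF) : ‖cM t F‖ ≤ 1 ∧ ‖cA t F‖ ≤ 1 := by
  induction F with
  | nil => simp
  | cons c s ihc ihs =>
    have hp := pp_nonneg zero_le_one c
    have hp1 := pp_lt_one zero_le_one c
    constructor
    · rw [cM_cons, norm_mul]
      have h1 := norm_add_le
        (((1 - pp 1 c : ℝ) : ℂ) * Complex.exp (((-(t * pp 1 c * DD 1 c) : ℝ) : ℂ) * Complex.I)
            * cM t c)
        (((pp 1 c : ℝ) : ℂ) * Complex.exp (((t * (1 - pp 1 c) * DD 1 c : ℝ) : ℂ) * Complex.I)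
            * cA t c)
      have h2 := norm_term (x := -(t * pp 1 c * DD 1 c)) (sub_nonneg.2 hp1.le) ihc.1
      have h3 := norm_term (x := t * (1 - pp 1 c) * DD 1 c) hp ihc.2
      exact mul_le_one₀ (by linarith) (norm_nonneg _) ihs.1
    · rw [cA_cons, norm_mul]
      exact mul_le_one₀ ihc.1 (norm_nonneg _) ihs.2

theorem chf_tot (t : ℝ) (F : BF) :
    ‖cM t F - ((Real.exp (-(VM 1 F * t ^ 2 / 2)) : ℝ) : ℂ)‖ ≤ Tot (loc t) F ∧
    ‖cA t F - ((Real.exp (-(VA 1 F * t ^ 2 / 2)) : ℝ) : ℂ)‖ ≤ Tot (loc t) F := by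
  induction F with
  | nil => simp
  | cons c s ihc ihs =>
    have hp := pp_nonneg zero_le_one c
    have hp1 := pp_lt_one zero_le_one c
    have hl : 0 ≤ loc t c := norm_nonneg _
    obtain ⟨⟨hVc, -⟩, hAc, -⟩ := VM_VA_le one_pos c
    obtain ⟨⟨hVs, -⟩, hAs, -⟩ := VM_VA_le one_pos s
    have hexp : ∀ a b : ℝ, ((Real.exp (-((a + b) * t ^ 2 / 2)) : ℝ) : ℂ) =
        ((Real.exp (-(a * t ^ 2 / 2)) : ℝ) : ℂ) * ((Real.exp (-(b * t ^ 2 / 2)) : ℝ) : ℂ) := by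
      intro a b
      rw [← Complex.ofReal_mul, ← Real.exp_add]
      congr 2
      ring
    rw [Tot_cons]
    constructor
    · have hw : 0 ≤ (1 - pp 1 c) * VM 1 c + pp 1 c * VA 1 c + ww 1 c := by
        have h1 := mul_nonneg (sub_nonneg.2 hp1.le) hVc
        have h2 := mul_nonneg hp hAc
        have h3 := ww_nonneg zero_le_one c
        linarith
      rw [cM_cons, VM_cons, hexp]
      have hB := norm_term_sub (x := -(t * pp 1 c * DD 1 c)) (sub_nonneg.2 hp1.le) ihc.1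
      have hB' := norm_term_sub (x := t * (1 - pp 1 c) * DD 1 c) hp ihc.2
      refine (norm_prod_sub (norm_cM_cA_le t s).1 (norm_gauss hw)).trans ?_
      have h5 : loc t c = ‖((1 - pp 1 c : ℝ) : ℂ) *
            Complex.exp (((-(t * pp 1 c * DD 1 c) : ℝ) : ℂ) * Complex.I)
            * ((Real.exp (-(VM 1 c * t ^ 2 / 2)) : ℝ) : ℂ)
          + ((pp 1 c : ℝ) : ℂ) * Complex.exp (((t * (1 - pp 1 c) * DD 1 c : ℝ) : ℂ) * Complex.I)
            * ((Real.exp (-(VA 1 c * t ^ 2 / 2)) : ℝ) : ℂ)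
          - ((Real.exp (-(((1 - pp 1 c) * VM 1 c + pp 1 c * VA 1 c + ww 1 c) * t ^ 2 / 2)) : ℝ) :
              ℂ)‖ := rfl
      have h6 := ihs.1
      generalize ((Real.exp (-(((1 - pp 1 c) * VM 1 c + pp 1 c * VA 1 c + ww 1 c) * t ^ 2 / 2)) :
        ℝ) : ℂ) = G at h5 ⊢
      generalize ((1 - pp 1 c : ℝ) : ℂ) *
            Complex.exp (((-(t * pp 1 c * DD 1 c) : ℝ) : ℂ) * Complex.I)
            * ((Real.exp (-(VM 1 c * t ^ 2 / 2)) : ℝ) : ℂ) = A1 at h5 hB ⊢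
      generalize ((pp 1 c : ℝ) : ℂ) *
            Complex.exp (((t * (1 - pp 1 c) * DD 1 c : ℝ) : ℂ) * Complex.I)
            * ((Real.exp (-(VA 1 c * t ^ 2 / 2)) : ℝ) : ℂ) = A2 at h5 hB' ⊢
      generalize ((1 - pp 1 c : ℝ) : ℂ) *
            Complex.exp (((-(t * pp 1 c * DD 1 c) : ℝ) : ℂ) * Complex.I)
            * cM t c = B1 at hB ⊢
      generalize ((pp 1 c : ℝ) : ℂ) *
            Complex.exp (((t * (1 - pp 1 c) * DD 1 c : ℝ) : ℂ) * Complex.I)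
            * cA t c = B2 at hB' ⊢
      have h7 : B1 + B2 - G = ((B1 - A1) + (B2 - A2)) + (A1 + A2 - G) := by ring
      have h8 : ‖B1 + B2 - G‖ ≤ (‖B1 - A1‖ + ‖B2 - A2‖) + loc t c := by
        rw [h7, h5]
        exact (norm_add_le _ _).trans (add_le_add (norm_add_le _ _) le_rfl)
      have h9 : (1 - pp 1 c) * Tot (loc t) c + pp 1 c * Tot (loc t) c = Tot (loc t) c := by ring
      linarith
    · rw [cA_cons, VA_cons, hexp]
      refine (norm_prod_sub (norm_cM_cA_le t s).2 (norm_gauss hVc)).trans ?_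
      linarith [ihc.1, ihs.2]

end Pool.Agent.Helper50.AM
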