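import Pool.Agent.Helper50.AM.LogQ

/-!
# AM-09: `DD` is sublinear at the vertices whose `pp` is not small (all fugacities `≤ R`)

PROOF. (1) `|E r F| ≤ Top (fun c => pp r c * |DD r c|) F`: induction, `E_cons`, triangle inequality.
(2) `|DD r c| ≤ 1 + Top (fun d => pp r d * |DD r d|) c` (as `DD = 1 - E`), and
`|DD r c| ≤ 1 + N c`: `|E r F| ≤ N F` by induction (`|pp * DD| ≤ 1 * (1 + N c)`).
(3) Let `θ = R / (1 + R) < 1`; `pp r c ≤ r / (1 + r) ≤ θ`. Claim Q(j) by induction on `j`: for all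
`ε, η > 0` there is `C ≥ 0` with `|DD r c| ≤ C + (ε + θ^j) * N c` for all `0 < r ≤ R` and all `c`
with `η ≤ pp r c`. Q(0) is (2). Q(j) ⟹ Q(j+1): let `η' = ε/2`, `C'` from Q(j) for `ε/2, η'`. For a
child `d` of `c`: if `pp r d < η'` then `pp r d * |DD r d| ≤ ε/2 * (1 + N d)`; otherwise
`pp r d * |DD r d| ≤ θ (C' + (ε/2 + θ^j) N d)`. So it is
`≤ ε/2 * (1 + N d) + indicator * C' + (ε/2 + θ^(j+1)) * N d` (`θ ≤ 1`). Sum over the children:
`Top (1 + N d) c = N c` (`Top_N`), `Top indicator c ≤ L / η'` (`cnt_le`),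
`L = - log (q r c) ≤ - log (η / r) ≤ - log (η / R)` (`neg_log_q_le`). So
`|DD r c| ≤ 1 + (- log (η/R))/η' * C' + (ε + θ^(j+1)) * N c` (replace `- log (η/R)` by
`|log (η/R)|` to have a nonnegative constant).
-/

namespace Pool.Agent.Helper50.AM

open BF

theorem abs_E_le_Top {r : ℝ} (hr : 0 < r) (F : BF) :
    |E r F| ≤ Top (fun c => pp r c * |DD r c|) F := by
  induction F with
  | nil => simp
  | cons c s _ ihs =>
    rw [E_cons, Top_cons]
    refine (abs_add_le _ _).trans ?_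
    rw [abs_mul, abs_of_nonneg (pp_nonneg hr.le c)]
    linarith

theorem DD_le_Top {r : ℝ} (hr : 0 < r) (c : BF) :
    |DD r c| ≤ 1 + Top (fun d => pp r d * |DD r d|) c := by
  have h1 := abs_E_le_Top hr c
  have h2 : |DD r c| ≤ |(1 : ℝ)| + |E r c| := by
    unfold DD
    exact abs_sub _ _
  rw [abs_one] at h2
  linarith

theorem abs_E_le_N {r : ℝ} (hr : 0 < r) (F : BF) : |E r F| ≤ N F := by
  induction F with
  | nil => simp
  | cons c s ihc ihs =>
    rw [E_cons, N_cons]
    refine (abs_add_le _ _).trans ?_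
    rw [abs_mul, abs_of_nonneg (pp_nonneg hr.le c)]
    have h1 := pp_lt_one hr.le c
    have h2 : |DD r c| ≤ |(1 : ℝ)| + |E r c| := by
      unfold DD
      exact abs_sub _ _
    rw [abs_one] at h2
    have h3 : pp r c * |DD r c| ≤ 1 * |DD r c| :=
      mul_le_mul_of_nonneg_right h1.le (abs_nonneg _)
    push_cast
    linarith

theorem DD_le_N {r : ℝ} (hr : 0 < r) (c : BF) : |DD r c| ≤ 1 + N c := by
  have h1 := abs_E_le_N hr c
  have h2 : |DD r c| ≤ |(1 : ℝ)| + |E r c| := by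
    unfold DD
    exact abs_sub _ _
  rw [abs_one] at h2
  linarith

theorem DD_gen_aux {R : ℝ} (hR : 0 < R) (j : ℕ) : ∀ {ε η : ℝ}, 0 < ε → 0 < η →
    ∃ C : ℝ, 0 ≤ C ∧ ∀ r : ℝ, 0 < r → r ≤ R → ∀ c : BF, η ≤ pp r c →
      |DD r c| ≤ C + (ε + (R / (1 + R)) ^ j) * N c := by
  have hθ0 : 0 ≤ R / (1 + R) := by positivity
  have hθ1 : R / (1 + R) ≤ 1 := by
    rw [div_le_one (by positivity)]
    linarith
  induction j with
  | zero =>
    intro ε η hε hη
    refine ⟨1, zero_le_one, fun r hr _ c _ => ?_⟩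
    have h1 := DD_le_N hr c
    have h2 : (0 : ℝ) ≤ N c := Nat.cast_nonneg _
    rw [pow_zero]
    nlinarith [mul_nonneg hε.le h2]
  | succ j ih =>
    intro ε η hε hη
    set θ : ℝ := R / (1 + R) with hθ
    have hε2 : 0 < ε / 2 := by positivity
    obtain ⟨C', hC', hC⟩ := ih hε2 hε2
    refine ⟨1 + C' * (|Real.log (η / R)| / (ε / 2)), by positivity, fun r hr hrR c hc => ?_⟩
    have hpt : ∀ d : BF, pp r d * |DD r d| ≤ (ε + θ ^ (j + 1)) * (1 + (N d : ℝ))
        + C' * (if ε / 2 ≤ pp r d then 1 else 0) := by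
      intro d
      have hN : (0 : ℝ) ≤ N d := Nat.cast_nonneg _
      have hp0 := pp_nonneg hr.le d
      have hθj : 0 ≤ θ ^ (j + 1) := pow_nonneg hθ0 _
      by_cases h : ε / 2 ≤ pp r d
      · rw [if_pos h, mul_one]
        have h1 := hC r hr hrR d h
        have h2 : pp r d ≤ θ := by
          refine (pp_le hr.le d).trans ?_
          rw [hθ, div_le_div_iff₀ (by positivity) (by positivity)]
          nlinarith
        have h3 : pp r d * |DD r d| ≤ θ * (C' + (ε / 2 + θ ^ j) * N d) :=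
          mul_le_mul h2 h1 (abs_nonneg _) hθ0
        have h4 : θ * (C' + (ε / 2 + θ ^ j) * N d) =
            θ * C' + θ * (ε / 2 * N d) + θ ^ (j + 1) * N d := by
          rw [pow_succ]; ring
        have h5 : θ * C' ≤ C' := by
          have := mul_le_mul_of_nonneg_right hθ1 hC'
          linarith
        have h6 : θ * (ε / 2 * N d) ≤ ε / 2 * N d := by
          have := mul_le_mul_of_nonneg_right hθ1 (mul_nonneg hε2.le hN)
          linarith
        have h7 : 0 ≤ ε * (N d : ℝ) := mul_nonneg hε.le hN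
        nlinarith
      · rw [if_neg h, mul_zero, add_zero]
        push Not at h
        have h1 := DD_le_N hr d
        have h2 : pp r d * |DD r d| ≤ (ε / 2) * (1 + N d) :=
          mul_le_mul h.le h1 (abs_nonneg _) hε2.le
        have h3 : (ε / 2) * (1 + (N d : ℝ)) ≤ (ε + θ ^ (j + 1)) * (1 + (N d : ℝ)) :=
          mul_le_mul_of_nonneg_right (by linarith) (by linarith)
        linarith
    have h1 := DD_le_Top hr c
    have h2 := Top_mono hpt c
    rw [Top_add (fun d => (ε + θ ^ (j + 1)) * (1 + (N d : ℝ)))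
      (fun d => C' * (if ε / 2 ≤ pp r d then 1 else 0)), Top_mul, Top_mul, Top_N] at h2
    have h3 := cnt_le hr hε2 c
    have h4 := neg_log_q_le hr hη c hc
    have h5 : - Real.log (η / r) ≤ |Real.log (η / R)| := by
      have h6 : Real.log (η / R) ≤ Real.log (η / r) := by
        apply Real.log_le_log (by positivity)
        exact div_le_div_of_nonneg_left hη.le hr hrR
      have h7 := neg_le_abs (Real.log (η / R))
      linarith
    have h6 : Top (fun c => if ε / 2 ≤ pp r c then 1 else 0) c ≤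
        |Real.log (η / R)| / (ε / 2) := by
      rw [le_div_iff₀ hε2]
      linarith
    have h7 := mul_le_mul_of_nonneg_left h6 hC'
    linarith

theorem DD_gen {R ε η : ℝ} (hR : 0 < R) (hε : 0 < ε) (hη : 0 < η) : ∃ C : ℝ, 0 ≤ C ∧
    ∀ r : ℝ, 0 < r → r ≤ R → ∀ c : BF, η ≤ pp r c → |DD r c| ≤ C + ε * N c := by
  have hθ0 : 0 ≤ R / (1 + R) := by positivity
  have hθ1 : R / (1 + R) < 1 := by
    rw [div_lt_one (by positivity)]
    linarith
  have hε2 : 0 < ε / 2 := by positivity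
  obtain ⟨j, hj⟩ := exists_pow_lt_of_lt_one hε2 hθ1
  obtain ⟨C, hC, h⟩ := DD_gen_aux hR j hε2 hη
  refine ⟨C, hC, fun r hr hrR c hc => (h r hr hrR c hc).trans ?_⟩
  have hN : (0 : ℝ) ≤ N c := Nat.cast_nonneg _
  have := mul_le_mul_of_nonneg_right (show ε / 2 + (R / (1 + R)) ^ j ≤ ε by linarith) hN
  linarith

end Pool.Agent.Helper50.AM
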