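import Mathlib

/-!
# Project AM (MP_6c3fc6_co): independent set sequences of large forests are unimodal

Definitions.  `BF` codes finite rooted forests: `cons c s` is the forest that consists of one tree,
whose root has the children forest `c`, and of the forest `s`.

* `MP F` is the independence polynomial of the forest, `AP F` the independence polynomial of the
  forest without its roots.
* At fugacity `r > 0` the hard core measure is a Markov chain; for a vertex with children forest
  `c`: `pp r c` is the probability that the vertex is occupied (in its subtree), `DD r c` the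
  difference of the mean sizes given occupied / not occupied, `ww r c = p (1 - p) D ^ 2`,
  `dl r c` the difference of the variances given occupied / not occupied.
* `q r F` is the probability that no root of the forest is occupied, `mM, VM` mean and variance of
  the size under the polynomial `MP F`, and `mA, VA` those under `AP F`.
* `cM t F`, `cA t F` are the centred characteristic functions at fugacity `1`.
* `Top g F` is the sum of `g` over the roots, `Tot g F` the sum over all vertices (`g` is applied
  to the children forest of the vertex).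
-/

namespace Pool.Agent.Helper50.AM

open Polynomial

/-- Rooted forests. -/
inductive BF : Type
  | nil : BF
  | cons : BF → BF → BF

namespace BF

/-- number of vertices -/
def N : BF → ℕ
  | nil => 0
  | cons c s => 1 + N c + N s

/-- the pair (independence polynomial, independence polynomial without the roots) -/
noncomputable def MA : BF → ℝ[X] × ℝ[X]
  | nil => (1, 1)
  | cons c s => (((MA c).1 + X * (MA c).2) * (MA s).1, (MA c).1 * (MA s).2)

/-- independence polynomial -/
noncomputable def MP (F : BF) : ℝ[X] := (MA F).1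

/-- independence polynomial of the forest without its roots -/
noncomputable def AP (F : BF) : ℝ[X] := (MA F).2

/-- the sum of `g` over the roots -/
def Top (g : BF → ℝ) : BF → ℝ
  | nil => 0
  | cons c s => g c + Top g s

/-- the sum of `g` over all vertices -/
def Tot (g : BF → ℝ) : BF → ℝ
  | nil => 0
  | cons c s => g c + Tot g c + Tot g s

/-- probability that no root is occupied -/
noncomputable def q (r : ℝ) : BF → ℝ
  | nil => 1
  | cons c s => q r s / (1 + r * q r c)

/-- probability that a vertex with children forest `c` is occupied (in its own subtree) -/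
noncomputable def pp (r : ℝ) (c : BF) : ℝ := r * q r c / (1 + r * q r c)

/-- `∑ p D` over the roots, which is `mM - mA` -/
noncomputable def E (r : ℝ) : BF → ℝ
  | nil => 0
  | cons c s => (r * q r c / (1 + r * q r c)) * (1 - E r c) + E r s

/-- mean size given occupied minus mean size given not occupied -/
noncomputable def DD (r : ℝ) (c : BF) : ℝ := 1 - E r c

/-- the variance contribution of a vertex -/
noncomputable def ww (r : ℝ) (c : BF) : ℝ := pp r c * (1 - pp r c) * DD r c ^ 2

/-- the pair (mean, mean without the roots) -/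
noncomputable def mm (r : ℝ) : BF → ℝ × ℝ
  | nil => (0, 0)
  | cons c s => ((1 - pp r c) * (mm r c).1 + pp r c * (1 + (mm r c).2) + (mm r s).1,
      (mm r c).1 + (mm r s).2)

noncomputable def mM (r : ℝ) (F : BF) : ℝ := (mm r F).1
noncomputable def mA (r : ℝ) (F : BF) : ℝ := (mm r F).2

/-- the pair (variance, variance without the roots) -/
noncomputable def VV (r : ℝ) : BF → ℝ × ℝ
  | nil => (0, 0)
  | cons c s => ((1 - pp r c) * (VV r c).1 + pp r c * (VV r c).2 + ww r c + (VV r s).1,
      (VV r c).1 + (VV r s).2)

noncomputable def VM (r : ℝ) (F : BF) : ℝ := (VV r F).1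
noncomputable def VA (r : ℝ) (F : BF) : ℝ := (VV r F).2

/-- difference of the variances given occupied / not occupied -/
noncomputable def dl (r : ℝ) (c : BF) : ℝ := VA r c - VM r c

/-- the pair of centred characteristic functions, fugacity `1` -/
noncomputable def cc (t : ℝ) : BF → ℂ × ℂ
  | nil => (1, 1)
  | cons c s =>
      ((((1 - pp 1 c : ℝ) : ℂ) * Complex.exp (((-(t * pp 1 c * DD 1 c) : ℝ) : ℂ) * Complex.I)
            * (cc t c).1
          + ((pp 1 c : ℝ) : ℂ) * Complex.exp (((t * (1 - pp 1 c) * DD 1 c : ℝ) : ℂ) * Complex.I)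
            * (cc t c).2) * (cc t s).1,
        (cc t c).1 * (cc t s).2)

noncomputable def cM (t : ℝ) (F : BF) : ℂ := (cc t F).1
noncomputable def cA (t : ℝ) (F : BF) : ℂ := (cc t F).2

/-- the local error: two point mixture of centred Gaussians against the Gaussian with the same
variance -/
noncomputable def locErr (t p D V0 V1 : ℝ) : ℝ :=
  ‖((1 - p : ℝ) : ℂ) * Complex.exp (((-(t * p * D) : ℝ) : ℂ) * Complex.I)
        * ((Real.exp (-(V0 * t ^ 2 / 2)) : ℝ) : ℂ)
      + ((p : ℝ) : ℂ) * Complex.exp (((t * (1 - p) * D : ℝ) : ℂ) * Complex.I)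
        * ((Real.exp (-(V1 * t ^ 2 / 2)) : ℝ) : ℂ)
      - ((Real.exp (-(((1 - p) * V0 + p * V1 + p * (1 - p) * D ^ 2) * t ^ 2 / 2)) : ℝ) : ℂ)‖

/-- the local error at a vertex with children forest `c` -/
noncomputable def loc (t : ℝ) (c : BF) : ℝ := locErr t (pp 1 c) (DD 1 c) (VM 1 c) (VA 1 c)

/-! ### Equations -/

@[simp] theorem N_nil : N nil = 0 := rfl
@[simp] theorem N_cons (c s : BF) : N (cons c s) = 1 + N c + N s := rfl
@[simp] theorem MP_nil : MP nil = 1 := rfl
@[simp] theorem AP_nil : AP nil = 1 := rfl
theorem MP_cons (c s : BF) : MP (cons c s) = (MP c + X * AP c) * MP s := rfl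
theorem AP_cons (c s : BF) : AP (cons c s) = MP c * AP s := rfl
@[simp] theorem Top_nil (g : BF → ℝ) : Top g nil = 0 := rfl
@[simp] theorem Top_cons (g : BF → ℝ) (c s : BF) : Top g (cons c s) = g c + Top g s := rfl
@[simp] theorem Tot_nil (g : BF → ℝ) : Tot g nil = 0 := rfl
@[simp] theorem Tot_cons (g : BF → ℝ) (c s : BF) :
    Tot g (cons c s) = g c + Tot g c + Tot g s := rfl
@[simp] theorem q_nil (r : ℝ) : q r nil = 1 := rfl
theorem q_cons (r : ℝ) (c s : BF) : q r (cons c s) = q r s / (1 + r * q r c) := rfl
@[simp] theorem E_nil (r : ℝ) : E r nil = 0 := rfl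
theorem E_cons (r : ℝ) (c s : BF) : E r (cons c s) = pp r c * DD r c + E r s := rfl
@[simp] theorem mM_nil (r : ℝ) : mM r nil = 0 := rfl
@[simp] theorem mA_nil (r : ℝ) : mA r nil = 0 := rfl
theorem mM_cons (r : ℝ) (c s : BF) :
    mM r (cons c s) = (1 - pp r c) * mM r c + pp r c * (1 + mA r c) + mM r s := rfl
theorem mA_cons (r : ℝ) (c s : BF) : mA r (cons c s) = mM r c + mA r s := rfl
@[simp] theorem VM_nil (r : ℝ) : VM r nil = 0 := rfl
@[simp] theorem VA_nil (r : ℝ) : VA r nil = 0 := rfl
theorem VM_cons (r : ℝ) (c s : BF) :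
    VM r (cons c s) = (1 - pp r c) * VM r c + pp r c * VA r c + ww r c + VM r s := rfl
theorem VA_cons (r : ℝ) (c s : BF) : VA r (cons c s) = VM r c + VA r s := rfl
@[simp] theorem cM_nil (t : ℝ) : cM t nil = 1 := rfl
@[simp] theorem cA_nil (t : ℝ) : cA t nil = 1 := rfl
theorem cM_cons (t : ℝ) (c s : BF) :
    cM t (cons c s) =
      (((1 - pp 1 c : ℝ) : ℂ) * Complex.exp (((-(t * pp 1 c * DD 1 c) : ℝ) : ℂ) * Complex.I)
            * cM t c
          + ((pp 1 c : ℝ) : ℂ) * Complex.exp (((t * (1 - pp 1 c) * DD 1 c : ℝ) : ℂ) * Complex.I)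
            * cA t c) * cM t s := rfl
theorem cA_cons (t : ℝ) (c s : BF) : cA t (cons c s) = cM t c * cA t s := rfl

/-! ### Sums -/

theorem Top_nonneg {g : BF → ℝ} (hg : ∀ c, 0 ≤ g c) (F : BF) : 0 ≤ Top g F := by
  induction F with
  | nil => simp
  | cons c s _ ihs => simp only [Top_cons]; linarith [hg c]

theorem Tot_nonneg {g : BF → ℝ} (hg : ∀ c, 0 ≤ g c) (F : BF) : 0 ≤ Tot g F := by
  induction F with
  | nil => simp
  | cons c s ihc ihs => simp only [Tot_cons]; linarith [hg c]

theorem Top_mono {g h : BF → ℝ} (hg : ∀ c, g c ≤ h c) (F : BF) : Top g F ≤ Top h F := by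
  induction F with
  | nil => simp
  | cons c s _ ihs => simp only [Top_cons]; linarith [hg c]

theorem Tot_mono {g h : BF → ℝ} (hg : ∀ c, g c ≤ h c) (F : BF) : Tot g F ≤ Tot h F := by
  induction F with
  | nil => simp
  | cons c s ihc ihs => simp only [Tot_cons]; linarith [hg c]

theorem Top_add (g h : BF → ℝ) (F : BF) : Top (fun c => g c + h c) F = Top g F + Top h F := by
  induction F with
  | nil => simp
  | cons c s _ ihs => simp only [Top_cons]; rw [ihs]; ring

theorem Tot_add (g h : BF → ℝ) (F : BF) : Tot (fun c => g c + h c) F = Tot g F + Tot h F := by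
  induction F with
  | nil => simp
  | cons c s ihc ihs => simp only [Tot_cons]; rw [ihc, ihs]; ring

theorem Top_mul (a : ℝ) (g : BF → ℝ) (F : BF) : Top (fun c => a * g c) F = a * Top g F := by
  induction F with
  | nil => simp
  | cons c s _ ihs => simp only [Top_cons]; rw [ihs]; ring

theorem Tot_mul (a : ℝ) (g : BF → ℝ) (F : BF) : Tot (fun c => a * g c) F = a * Tot g F := by
  induction F with
  | nil => simp
  | cons c s ihc ihs => simp only [Tot_cons]; rw [ihc, ihs]; ring

theorem Tot_const (a : ℝ) (F : BF) : Tot (fun _ => a) F = a * N F := by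
  induction F with
  | nil => simp
  | cons c s ihc ihs => simp only [Tot_cons, N_cons]; rw [ihc, ihs]; push_cast; ring

/-- every vertex is a root or the child of a vertex -/
theorem Tot_Top (g : BF → ℝ) (F : BF) : Tot (fun c => Top g c) F + Top g F = Tot g F := by
  induction F with
  | nil => simp
  | cons c s ihc ihs => simp only [Tot_cons, Top_cons]; linarith

theorem Top_le_Tot {g : BF → ℝ} (hg : ∀ c, 0 ≤ g c) (F : BF) : Top g F ≤ Tot g F := by
  have := Tot_Top g F
  have h2 := Tot_nonneg (g := fun c => Top g c) (fun c => Top_nonneg hg c) F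
  linarith

/-- the vertices below a root, with the root -/
theorem Top_N (F : BF) : Top (fun c => 1 + (N c : ℝ)) F = N F := by
  induction F with
  | nil => simp
  | cons c s _ ihs => simp only [Top_cons, N_cons]; rw [ihs]; push_cast; ring

/-- `Tot` is the sum over the trees of the forest -/
theorem Top_self_add_Tot (g : BF → ℝ) (F : BF) : Top (fun c => g c + Tot g c) F = Tot g F := by
  induction F with
  | nil => simp
  | cons c s _ ihs => simp only [Top_cons, Tot_cons]; rw [ihs]

/-! ### Positivity -/

theorem q_pos {r : ℝ} (hr : 0 ≤ r) (F : BF) : 0 < q r F := by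
  induction F with
  | nil => simp
  | cons c s ihc ihs => rw [q_cons]; positivity

theorem q_le_one {r : ℝ} (hr : 0 ≤ r) (F : BF) : q r F ≤ 1 := by
  induction F with
  | nil => simp
  | cons c s ihc ihs =>
    rw [q_cons]
    have h1 := q_pos hr c
    have h2 := q_pos hr s
    rw [div_le_one (by positivity)]
    nlinarith [mul_nonneg hr h1.le]

theorem pp_nonneg {r : ℝ} (hr : 0 ≤ r) (c : BF) : 0 ≤ pp r c := by
  have h1 := q_pos hr c
  unfold pp; positivity

theorem pp_pos {r : ℝ} (hr : 0 < r) (c : BF) : 0 < pp r c := by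
  have h1 := q_pos hr.le c
  unfold pp; positivity

theorem one_sub_pp {r : ℝ} (hr : 0 ≤ r) (c : BF) : 1 - pp r c = 1 / (1 + r * q r c) := by
  have h1 := q_pos hr c
  have : 1 + r * q r c ≠ 0 := by positivity
  unfold pp; field_simp; ring

theorem pp_lt_one {r : ℝ} (hr : 0 ≤ r) (c : BF) : pp r c < 1 := by
  have h1 := q_pos hr c
  have h := one_sub_pp hr c
  have : 0 < 1 / (1 + r * q r c) := by positivity
  linarith

theorem pp_le {r : ℝ} (hr : 0 ≤ r) (c : BF) : pp r c ≤ r / (1 + r) := by
  have h1 := q_pos hr c
  have h2 := q_le_one hr c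
  unfold pp
  rw [div_le_div_iff₀ (by positivity) (by positivity)]
  nlinarith [mul_nonneg hr (sub_nonneg.2 h2)]

theorem ww_nonneg {r : ℝ} (hr : 0 ≤ r) (c : BF) : 0 ≤ ww r c := by
  have h1 := pp_nonneg hr c
  have h2 := pp_lt_one hr c
  unfold ww
  have : 0 ≤ 1 - pp r c := by linarith
  positivity

end BF

end Pool.Agent.Helper50.AM
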