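import Pool.Agent.Helper50.AM.Defs

/-!
# Project AM: the facts about the independence polynomial of a forest that come from the graph side
-/

namespace Pool.Agent.Helper50.AM

open Polynomial BF

/-- the number of independent sets with `k` vertices -/
noncomputable def f (F : BF) (k : ℕ) : ℝ := (MP F).coeff k

/-- the partition function -/
noncomputable def Z (r : ℝ) (F : BF) : ℝ := (MP F).eval r

/-- the weight of the independent sets with at most `k` vertices -/
noncomputable def LO (r : ℝ) (k : ℕ) (F : BF) : ℝ := ∑ j ∈ Finset.range (k + 1), f F j * r ^ j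

/-- the independence polynomial at `e ^ (i t)` -/
noncomputable def chi (t : ℝ) (F : BF) : ℂ :=
  ((MP F).map (algebraMap ℝ ℂ)).eval (Complex.exp ((t : ℂ) * Complex.I))

/-- the density of the centred normal law with variance `v` -/
noncomputable def G (v x : ℝ) : ℝ := Real.exp (-(x ^ 2 / (2 * v))) / Real.sqrt (2 * Real.pi * v)

/-- The facts that are proved on the graph side; `α` is the independence number. -/
structure Good (F : BF) (α : ℕ) : Prop where
  f_zero : f F 0 = 1
  f_one : f F 1 = N F
  pos : ∀ k, k ≤ α → 1 ≤ f F k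
  top : ∀ k, α < k → f F k = 0
  lip : ∀ k : ℕ, ((k : ℝ) + 1) * f F (k + 1) ^ 2 ≤
    ((k : ℝ) + 2) * f F (k + 2) * f F k + 3 * f F k * f F (k + 1)
  up : ∀ k : ℕ, ((k : ℝ) + 1) * f F (k + 1) ≤ 2 * ((α : ℝ) - k) * f F k
  card : N F ≤ 2 * α
  dec : ∀ t : ℝ, |t| ≤ Real.pi → ‖chi t F‖ ≤ Z 1 F * Real.exp (-(N F * t ^ 2 / 128))

end Pool.Agent.Helper50.AM
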