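import Pool.Agent.Helper50.AM.Defs

/-!
# AM-11: the local error

PROOF. Put `τ = t D`, `s₀ = V0 t²/2`, `s₁ = V1 t²/2` (both `≥ 0`), `δ = s₁ - s₀`,
`s = (1-p) s₀ + p s₁`, `y = p (1-p) τ² / 2`. The quantity in the norm is
`(1-p) e^{-ipτ} e^{-s₀} + p e^{i(1-p)τ} e^{-s₁} - e^{-s-y}`.
(i) For `a, b ≥ 0`: `|e^{-a} - e^{-b} + (a-b) e^{-b}| ≤ |a-b| * min 1 |a-b|` (mean value theorem:
`e^{-a} - e^{-b} = -(a-b) e^{-ξ}`, and `|e^{-b} - e^{-ξ}| ≤ min 1 |a-b|`). With `s₀ - s = -p δ`,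
`s₁ - s = (1-p) δ` one gets `e^{-s₀} = e^{-s} (1 + p δ) + ρ₀`, `e^{-s₁} = e^{-s} (1 - (1-p) δ) + ρ₁`,
`(1-p)|ρ₀| + p |ρ₁| ≤ 2 p (1-p) |δ| min 1 |δ|`.
(ii) The rest is `e^{-s}` (`≤ 1`) times
`[(1-p) e^{-ipτ} + p e^{i(1-p)τ} - 1 + y] + [1 - y - e^{-y}] + p (1-p) δ (e^{-ipτ} - e^{i(1-p)τ})`.
First bracket: `e^{ix} = 1 + i x - x²/2 + R(x)`, `|R(x)| ≤ x² min 1 |x|` (Taylor with `|x|³/6`, and
`|e^{ix} - 1 - ix| ≤ x²/2`); the terms of order 0, 1, 2 give `1 - y`, so it is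
`≤ (1-p) p² τ² min 1 |τ| + p (1-p)² τ² min 1 |τ| = p (1-p) τ² min 1 |τ|`.
Second: `|1 - y - e^{-y}| ≤ y min 1 y ≤ 1/2 p (1-p) τ² min 1 |τ|` (`y ≤ τ²/8`).
Third: `≤ p (1-p) |δ| * min 2 |τ|` (`|e^{ia} - e^{ib}| ≤ min 2 |a-b|`).
(iii) `|δ| = |V1 - V0| t²/2`; add up: `2|δ| min 1 |δ| + |δ| min 2 |τ| ≤
2 |V1-V0| t² min 1 (|V1-V0| t² + |τ|)`.
-/

namespace Pool.Agent.Helper50.AM

open BF

private theorem lt_real {a b : ℝ} (ha : 0 ≤ a) (hb : 0 ≤ b) :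
    |Real.exp (-a) - Real.exp (-b) + (a - b) * Real.exp (-b)| ≤ |a - b| * min 1 |a - b| := by
  have hb1 : Real.exp (-b) ≤ 1 := Real.exp_le_one_iff.mpr (by linarith)
  have hb0 : 0 < Real.exp (-b) := Real.exp_pos _
  set x := a - b with hx
  have e1 : Real.exp (-a) = Real.exp (-b) * Real.exp (-x) := by
    rw [← Real.exp_add]
    congr 1
    rw [hx]
    ring
  have e2 : Real.exp (-a) - Real.exp (-b) + x * Real.exp (-b) =
      Real.exp (-b) * (Real.exp (-x) - 1 - (-x)) := by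
    rw [e1]
    ring
  rw [e2, abs_mul, abs_of_pos hb0]
  rcases le_or_gt |x| 1 with h | h
  · rw [min_eq_right h]
    have h1 := Real.abs_exp_sub_one_sub_id_le (x := -x) (by rwa [abs_neg])
    have h2 : (-x) ^ 2 = |x| * |x| := by
      rw [neg_sq, ← sq_abs, sq]
    rw [h2] at h1
    calc Real.exp (-b) * |Real.exp (-x) - 1 - (-x)| ≤ 1 * (|x| * |x|) :=
          mul_le_mul hb1 h1 (abs_nonneg _) zero_le_one
      _ = |x| * |x| := one_mul _
  · rw [min_eq_left h.le, mul_one]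
    have h0 : 0 ≤ Real.exp (-x) - 1 - (-x) := by
      have := Real.add_one_le_exp (-x)
      linarith
    rw [abs_of_nonneg h0]
    rcases le_or_gt 0 x with hx0 | hx0
    · rw [abs_of_nonneg hx0]
      have h3 : Real.exp (-x) ≤ 1 := Real.exp_le_one_iff.mpr (by linarith)
      calc Real.exp (-b) * (Real.exp (-x) - 1 - (-x)) ≤ 1 * x :=
            mul_le_mul hb1 (by linarith) h0 zero_le_one
        _ = x := one_mul _
    · rw [abs_of_neg hx0] at h ⊢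
      have h3 : Real.exp (-b) * Real.exp (-x) ≤ 1 := by
        rw [← e1]
        exact Real.exp_le_one_iff.mpr (by linarith)
      have h4 : Real.exp (-b) * (Real.exp (-x) - 1 - (-x)) ≤ Real.exp (-b) * Real.exp (-x) :=
        mul_le_mul_of_nonneg_left (by linarith) hb0.le
      linarith

private theorem lt_one (x : ℝ) : ‖Complex.exp ((x : ℂ) * Complex.I) - 1‖ ≤ |x| := by
  have := Real.norm_exp_I_mul_ofReal_sub_one_le (x := x)
  rwa [mul_comm, Real.norm_eq_abs] at this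

private theorem lt_two (x : ℝ) :
    ‖Complex.exp ((x : ℂ) * Complex.I) - 1 - (x : ℂ) * Complex.I‖ ≤ |x| * |x| := by
  have hd : ∀ u : ℝ, HasDerivAt (fun u : ℝ => Complex.exp ((u : ℂ) * Complex.I) - 1 - (u : ℂ) * Complex.I)
      (Complex.exp ((u : ℂ) * Complex.I) * Complex.I - Complex.I) u := by
    intro u
    have h1 : HasDerivAt (fun u : ℝ => (u : ℂ) * Complex.I) Complex.I u := by
      have := (Complex.ofRealCLM.hasDerivAt (x := u)).mul_const Complex.I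
      simpa using this
    have h2 := h1.cexp
    have h3 := (h2.sub_const 1).sub h1
    exact h3
  have hs : Convex ℝ (Metric.closedBall (0 : ℝ) |x|) := convex_closedBall _ _
  have h1 := hs.norm_image_sub_le_of_norm_hasDerivWithin_le (C := |x|)
    (fun u _ => (hd u).hasDerivWithinAt) (fun u hu => ?_)
    (x := 0) (y := x) (by simp) (by simp)
  · simpa using h1
  · have e : Complex.exp ((u : ℂ) * Complex.I) * Complex.I - Complex.I =
        (Complex.exp ((u : ℂ) * Complex.I) - 1) * Complex.I := by ring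
    rw [e, norm_mul, Complex.norm_I, mul_one]
    refine (lt_one u).trans ?_
    simpa using hu

private theorem lt_three (x : ℝ) :
    ‖Complex.exp ((x : ℂ) * Complex.I) - 1 - (x : ℂ) * Complex.I + (x : ℂ) ^ 2 / 2‖ ≤
      3 / 2 * (|x| ^ 2 * min 1 |x|) := by
  rcases le_or_gt |x| 1 with h | h
  · rw [min_eq_right h]
    have hn : ‖(x : ℂ) * Complex.I‖ = |x| := by
      rw [norm_mul, Complex.norm_I, mul_one, Complex.norm_real, Real.norm_eq_abs]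
    have h1 := Complex.exp_bound (x := (x : ℂ) * Complex.I) (by rw [hn]; exact h) (n := 3) (by norm_num)
    rw [hn] at h1
    have h2 : Complex.exp ((x : ℂ) * Complex.I) - ∑ m ∈ Finset.range 3,
        ((x : ℂ) * Complex.I) ^ m / m.factorial =
        Complex.exp ((x : ℂ) * Complex.I) - 1 - (x : ℂ) * Complex.I + (x : ℂ) ^ 2 / 2 := by
      simp only [Finset.sum_range_succ, Finset.sum_range_zero, Nat.factorial, mul_pow, Complex.I_sq]
      push_cast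
      ring
    rw [h2] at h1
    refine h1.trans ?_
    have h3 : 0 ≤ |x| := abs_nonneg x
    have h4 : ((Nat.succ 3 : ℕ) : ℝ) * (((Nat.factorial 3 : ℕ) : ℝ) * ((3 : ℕ) : ℝ))⁻¹ = 2 / 9 := by
      norm_num [Nat.factorial]
    rw [h4]
    have h5 : |x| ^ 2 * |x| = |x| ^ 3 := by ring
    rw [h5]
    have h6 : 0 ≤ |x| ^ 3 := by positivity
    linarith
  · rw [min_eq_left h.le, mul_one]
    have h1 := lt_two x
    have h2 : ‖(x : ℂ) ^ 2 / 2‖ = |x| ^ 2 / 2 := by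
      rw [norm_div, norm_pow, Complex.norm_real, Real.norm_eq_abs]
      simp
    refine (norm_add_le _ _).trans ?_
    rw [h2]
    nlinarith

private theorem lt_bracket {p τ : ℝ} (hp : 0 ≤ p) (hp1 : p ≤ 1) :
    ‖((1 - p : ℝ) : ℂ) * Complex.exp (((-(p * τ) : ℝ) : ℂ) * Complex.I)
      + ((p : ℝ) : ℂ) * Complex.exp ((((1 - p) * τ : ℝ) : ℂ) * Complex.I)
      - 1 + ((p * (1 - p) * τ ^ 2 / 2 : ℝ) : ℂ)‖ ≤ 3 / 2 * (p * (1 - p)) * (τ ^ 2 * min 1 |τ|) := by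
  have hq : 0 ≤ 1 - p := by linarith
  have e : ((1 - p : ℝ) : ℂ) * Complex.exp (((-(p * τ) : ℝ) : ℂ) * Complex.I)
      + ((p : ℝ) : ℂ) * Complex.exp ((((1 - p) * τ : ℝ) : ℂ) * Complex.I)
      - 1 + ((p * (1 - p) * τ ^ 2 / 2 : ℝ) : ℂ) =
      ((1 - p : ℝ) : ℂ) * (Complex.exp (((-(p * τ) : ℝ) : ℂ) * Complex.I) - 1
        - ((-(p * τ) : ℝ) : ℂ) * Complex.I + ((-(p * τ) : ℝ) : ℂ) ^ 2 / 2)
      + ((p : ℝ) : ℂ) * (Complex.exp ((((1 - p) * τ : ℝ) : ℂ) * Complex.I) - 1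
        - (((1 - p) * τ : ℝ) : ℂ) * Complex.I + (((1 - p) * τ : ℝ) : ℂ) ^ 2 / 2) := by
    push_cast
    ring
  rw [e]
  refine (norm_add_le _ _).trans ?_
  rw [norm_mul, norm_mul, Complex.norm_real, Complex.norm_real, Real.norm_of_nonneg hq,
    Real.norm_of_nonneg hp]
  have h1 := lt_three (-(p * τ))
  have h2 := lt_three ((1 - p) * τ)
  rw [abs_neg, abs_mul, abs_of_nonneg hp] at h1
  rw [abs_mul, abs_of_nonneg hq] at h2
  have hτ : 0 ≤ |τ| := abs_nonneg τ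
  have hm : 0 ≤ min 1 |τ| := le_min zero_le_one hτ
  have m1 : min 1 (p * |τ|) ≤ min 1 |τ| := min_le_min le_rfl (mul_le_of_le_one_left hτ hp1)
  have m2 : min 1 ((1 - p) * |τ|) ≤ min 1 |τ| :=
    min_le_min le_rfl (mul_le_of_le_one_left hτ (by linarith))
  have k1 : (p * |τ|) ^ 2 * min 1 (p * |τ|) ≤ p ^ 2 * (τ ^ 2 * min 1 |τ|) := by
    have : (p * |τ|) ^ 2 = p ^ 2 * τ ^ 2 := by rw [mul_pow, sq_abs]
    rw [this, mul_assoc]
    exact mul_le_mul_of_nonneg_left (mul_le_mul_of_nonneg_left m1 (sq_nonneg _)) (sq_nonneg _)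
  have k2 : ((1 - p) * |τ|) ^ 2 * min 1 ((1 - p) * |τ|) ≤ (1 - p) ^ 2 * (τ ^ 2 * min 1 |τ|) := by
    have : ((1 - p) * |τ|) ^ 2 = (1 - p) ^ 2 * τ ^ 2 := by rw [mul_pow, sq_abs]
    rw [this, mul_assoc]
    exact mul_le_mul_of_nonneg_left (mul_le_mul_of_nonneg_left m2 (sq_nonneg _)) (sq_nonneg _)
  set M := τ ^ 2 * min 1 |τ| with hM
  have h1' := mul_le_mul_of_nonneg_left (h1.trans (mul_le_mul_of_nonneg_left k1 (by norm_num))) hq
  have h2' := mul_le_mul_of_nonneg_left (h2.trans (mul_le_mul_of_nonneg_left k2 (by norm_num))) hp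
  have h3 : (1 - p) * (3 / 2 * (p ^ 2 * M)) + p * (3 / 2 * ((1 - p) ^ 2 * M)) =
      3 / 2 * (p * (1 - p)) * M := by ring
  rw [← h3]
  exact add_le_add h1' h2'

private theorem lt_diff {p τ : ℝ} :
    ‖Complex.exp (((-(p * τ) : ℝ) : ℂ) * Complex.I) - Complex.exp ((((1 - p) * τ : ℝ) : ℂ) * Complex.I)‖
      ≤ min 2 |τ| := by
  have e : Complex.exp (((-(p * τ) : ℝ) : ℂ) * Complex.I) -
      Complex.exp ((((1 - p) * τ : ℝ) : ℂ) * Complex.I) =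
      - (Complex.exp (((-(p * τ) : ℝ) : ℂ) * Complex.I) * (Complex.exp ((τ : ℂ) * Complex.I) - 1)) := by
    rw [mul_sub, mul_one, ← Complex.exp_add]
    have : (((1 - p) * τ : ℝ) : ℂ) * Complex.I =
        ((-(p * τ) : ℝ) : ℂ) * Complex.I + (τ : ℂ) * Complex.I := by
      push_cast
      ring
    rw [this]
    ring
  apply le_min
  · refine (norm_sub_le _ _).trans ?_
    rw [Complex.norm_exp_ofReal_mul_I, Complex.norm_exp_ofReal_mul_I]
    norm_num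
  · rw [e, norm_neg, norm_mul, Complex.norm_exp_ofReal_mul_I, one_mul]
    exact lt_one τ

theorem locErr_le {t p D V0 V1 : ℝ} (hp : 0 ≤ p) (hp1 : p ≤ 1) (h0 : 0 ≤ V0) (h1 : 0 ≤ V1) :
    locErr t p D V0 V1 ≤ 2 * (p * (1 - p)) * (D ^ 2 * t ^ 2 * min 1 |D * t|
      + |V1 - V0| * t ^ 2 * min 1 (|V1 - V0| * t ^ 2 + |D * t|)) := by
  have hq : 0 ≤ 1 - p := by linarith
  unfold locErr
  set τ := D * t with hτ
  set s0 := V0 * t ^ 2 / 2 with hs0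
  set s1 := V1 * t ^ 2 / 2 with hs1
  set δ := s1 - s0 with hδ
  set s := (1 - p) * s0 + p * s1 with hs
  set y := p * (1 - p) * τ ^ 2 / 2 with hy
  have hs0' : 0 ≤ s0 := by positivity
  have hs1' : 0 ≤ s1 := by positivity
  have hs' : 0 ≤ s := by positivity
  have hy' : 0 ≤ y := by positivity
  have e0 : -(t * p * D) = -(p * τ) := by rw [hτ]; ring
  have e1 : t * (1 - p) * D = (1 - p) * τ := by rw [hτ]; ring
  have e2 : -(((1 - p) * V0 + p * V1 + p * (1 - p) * D ^ 2) * t ^ 2 / 2) = -s + -y := by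
    rw [hs, hy, hs0, hs1, hτ]
    ring
  rw [e0, e1, e2, Real.exp_add]
  set u0 := Complex.exp (((-(p * τ) : ℝ) : ℂ) * Complex.I) with hu0
  set u1 := Complex.exp ((((1 - p) * τ : ℝ) : ℂ) * Complex.I) with hu1
  set ρ0 := Real.exp (-s0) - Real.exp (-s) + (s0 - s) * Real.exp (-s) with hρ0
  set ρ1 := Real.exp (-s1) - Real.exp (-s) + (s1 - s) * Real.exp (-s) with hρ1
  have a0 : |ρ0| ≤ |s0 - s| * min 1 |s0 - s| := lt_real hs0' hs'
  have a1 : |ρ1| ≤ |s1 - s| * min 1 |s1 - s| := lt_real hs1' hs'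
  have d0 : s0 - s = -(p * δ) := by rw [hs, hδ]; ring
  have d1 : s1 - s = (1 - p) * δ := by rw [hs, hδ]; ring
  have f0 : Real.exp (-s0) = ρ0 + Real.exp (-s) + p * δ * Real.exp (-s) := by
    rw [hρ0, d0]; ring
  have f1 : Real.exp (-s1) = ρ1 + Real.exp (-s) - (1 - p) * δ * Real.exp (-s) := by
    rw [hρ1, d1]; ring
  rw [f0, f1]
  have key : ((1 - p : ℝ) : ℂ) * u0 * ((ρ0 + Real.exp (-s) + p * δ * Real.exp (-s) : ℝ) : ℂ)
      + ((p : ℝ) : ℂ) * u1 * ((ρ1 + Real.exp (-s) - (1 - p) * δ * Real.exp (-s) : ℝ) : ℂ)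
      - ((Real.exp (-s) * Real.exp (-y) : ℝ) : ℂ) =
      ((1 - p : ℝ) : ℂ) * u0 * (ρ0 : ℂ) + ((p : ℝ) : ℂ) * u1 * (ρ1 : ℂ) +
      ((Real.exp (-s) : ℝ) : ℂ) * ((((1 - p : ℝ) : ℂ) * u0 + ((p : ℝ) : ℂ) * u1 - 1 + (y : ℂ))
        + ((1 - y - Real.exp (-y) : ℝ) : ℂ) + ((p * (1 - p) * δ : ℝ) : ℂ) * (u0 - u1)) := by
    push_cast
    ring
  rw [key]
  have n0 : ‖u0‖ = 1 := Complex.norm_exp_ofReal_mul_I _
  have n1 : ‖u1‖ = 1 := Complex.norm_exp_ofReal_mul_I _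
  have hes : ‖((Real.exp (-s) : ℝ) : ℂ)‖ ≤ 1 := by
    rw [Complex.norm_real, Real.norm_of_nonneg (Real.exp_pos _).le]
    exact Real.exp_le_one_iff.mpr (by linarith)
  have b1 : ‖((1 - p : ℝ) : ℂ) * u0 + ((p : ℝ) : ℂ) * u1 - 1 + (y : ℂ)‖ ≤
      3 / 2 * (p * (1 - p)) * (τ ^ 2 * min 1 |τ|) := lt_bracket hp hp1
  have b3 : ‖u0 - u1‖ ≤ min 2 |τ| := lt_diff
  have hpq : 0 ≤ p * (1 - p) := mul_nonneg hp hq
  have hpq4 : p * (1 - p) ≤ 1 / 4 := by nlinarith [sq_nonneg (p - 1 / 2)]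
  have hmt : 0 ≤ min 1 |τ| := le_min zero_le_one (abs_nonneg _)
  have b2 : |1 - y - Real.exp (-y)| ≤ 1 / 2 * (p * (1 - p)) * (τ ^ 2 * min 1 |τ|) := by
    have h2 := lt_real hy' (le_refl (0 : ℝ))
    rw [neg_zero, Real.exp_zero, mul_one, sub_zero, abs_of_nonneg hy'] at h2
    have h3 : |1 - y - Real.exp (-y)| = |Real.exp (-y) - 1 + y| := by
      rw [← abs_neg]
      congr 1
      ring
    rw [h3]
    refine h2.trans ?_
    have h4 : min 1 y ≤ min 1 |τ| := by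
      rcases le_or_gt |τ| 1 with h | h
      · rw [min_eq_right h]
        refine (min_le_right _ _).trans ?_
        rw [hy, ← sq_abs]
        nlinarith [abs_nonneg τ, sq_nonneg τ, mul_nonneg (abs_nonneg τ) (abs_nonneg τ)]
      · rw [min_eq_left h.le]
        exact min_le_left _ _
    calc y * min 1 y ≤ y * min 1 |τ| := mul_le_mul_of_nonneg_left h4 hy'
      _ = 1 / 2 * (p * (1 - p)) * (τ ^ 2 * min 1 |τ|) := by rw [hy]; ring
  -- the terms with δ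
  have c0 : (1 - p) * |ρ0| ≤ p * (1 - p) * (|δ| * min 1 |δ|) := by
    rw [d0, abs_neg, abs_mul, abs_of_nonneg hp] at a0
    have m1 : min 1 (p * |δ|) ≤ min 1 |δ| :=
      min_le_min le_rfl (mul_le_of_le_one_left (abs_nonneg _) hp1)
    have : |ρ0| ≤ p * |δ| * min 1 |δ| :=
      a0.trans (mul_le_mul_of_nonneg_left m1 (by positivity))
    calc (1 - p) * |ρ0| ≤ (1 - p) * (p * |δ| * min 1 |δ|) := mul_le_mul_of_nonneg_left this hq
      _ = _ := by ring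
  have c1 : p * |ρ1| ≤ p * (1 - p) * (|δ| * min 1 |δ|) := by
    rw [d1, abs_mul, abs_of_nonneg hq] at a1
    have m1 : min 1 ((1 - p) * |δ|) ≤ min 1 |δ| :=
      min_le_min le_rfl (mul_le_of_le_one_left (abs_nonneg _) (by linarith))
    have : |ρ1| ≤ (1 - p) * |δ| * min 1 |δ| :=
      a1.trans (mul_le_mul_of_nonneg_left m1 (by positivity))
    calc p * |ρ1| ≤ p * ((1 - p) * |δ| * min 1 |δ|) := mul_le_mul_of_nonneg_left this hp
      _ = _ := by ring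
  have g1 : ‖((1 - p : ℝ) : ℂ) * u0 * (ρ0 : ℂ)‖ = (1 - p) * |ρ0| := by
    rw [norm_mul, norm_mul, n0, Complex.norm_real, Complex.norm_real, Real.norm_of_nonneg hq,
      Real.norm_eq_abs, mul_one]
  have g2 : ‖((p : ℝ) : ℂ) * u1 * (ρ1 : ℂ)‖ = p * |ρ1| := by
    rw [norm_mul, norm_mul, n1, Complex.norm_real, Complex.norm_real, Real.norm_of_nonneg hp,
      Real.norm_eq_abs, mul_one]
  have g3 : ‖((p * (1 - p) * δ : ℝ) : ℂ) * (u0 - u1)‖ ≤ p * (1 - p) * |δ| * min 2 |τ| := by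
    rw [norm_mul, Complex.norm_real, Real.norm_eq_abs, abs_mul, abs_of_nonneg hpq]
    exact mul_le_mul_of_nonneg_left b3 (by positivity)
  have g4 : ‖((1 - y - Real.exp (-y) : ℝ) : ℂ)‖ = |1 - y - Real.exp (-y)| := by
    rw [Complex.norm_real, Real.norm_eq_abs]
  have g5 : ‖(((1 - p : ℝ) : ℂ) * u0 + ((p : ℝ) : ℂ) * u1 - 1 + (y : ℂ))
        + ((1 - y - Real.exp (-y) : ℝ) : ℂ) + ((p * (1 - p) * δ : ℝ) : ℂ) * (u0 - u1)‖ ≤
      2 * (p * (1 - p)) * (τ ^ 2 * min 1 |τ|) + p * (1 - p) * |δ| * min 2 |τ| := by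
    refine (norm_add_le _ _).trans (add_le_add ((norm_add_le _ _).trans ?_) g3)
    rw [g4]
    linarith
  have g6 : ‖((Real.exp (-s) : ℝ) : ℂ) * ((((1 - p : ℝ) : ℂ) * u0 + ((p : ℝ) : ℂ) * u1 - 1 + (y : ℂ))
        + ((1 - y - Real.exp (-y) : ℝ) : ℂ) + ((p * (1 - p) * δ : ℝ) : ℂ) * (u0 - u1))‖ ≤
      2 * (p * (1 - p)) * (τ ^ 2 * min 1 |τ|) + p * (1 - p) * |δ| * min 2 |τ| := by
    rw [norm_mul]
    calc _ ≤ 1 * ‖(((1 - p : ℝ) : ℂ) * u0 + ((p : ℝ) : ℂ) * u1 - 1 + (y : ℂ))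
        + ((1 - y - Real.exp (-y) : ℝ) : ℂ) + ((p * (1 - p) * δ : ℝ) : ℂ) * (u0 - u1)‖ :=
          mul_le_mul_of_nonneg_right hes (norm_nonneg _)
      _ ≤ _ := by rw [one_mul]; exact g5
  have total := (norm_add_le (((1 - p : ℝ) : ℂ) * u0 * (ρ0 : ℂ) + ((p : ℝ) : ℂ) * u1 * (ρ1 : ℂ))
    (((Real.exp (-s) : ℝ) : ℂ) * ((((1 - p : ℝ) : ℂ) * u0 + ((p : ℝ) : ℂ) * u1 - 1 + (y : ℂ))
        + ((1 - y - Real.exp (-y) : ℝ) : ℂ) + ((p * (1 - p) * δ : ℝ) : ℂ) * (u0 - u1)))).trans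
    (add_le_add (norm_add_le _ _) g6)
  rw [g1, g2] at total
  refine total.trans ?_
  -- final comparison
  have hδ2 : |δ| = |V1 - V0| * t ^ 2 / 2 := by
    have : δ = (V1 - V0) * (t ^ 2 / 2) := by rw [hδ, hs0, hs1]; ring
    rw [this, abs_mul, abs_of_nonneg (by positivity : (0 : ℝ) ≤ t ^ 2 / 2)]
    ring
  have hW : 0 ≤ |V1 - V0| * t ^ 2 := by positivity
  set Wd := |V1 - V0| * t ^ 2 with hWd
  have hδ0 : 0 ≤ |δ| := abs_nonneg _
  have hτ0 : 0 ≤ |τ| := abs_nonneg _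
  have m1 : min 1 |δ| ≤ min 1 (Wd + |τ|) := min_le_min le_rfl (by rw [hδ2]; linarith)
  have m2 : min 2 |τ| ≤ 2 * min 1 (Wd + |τ|) := by
    rcases le_total 1 (Wd + |τ|) with h | h
    · rw [min_eq_left h]
      exact (min_le_left _ _).trans (by norm_num)
    · rw [min_eq_right h]
      exact (min_le_right _ _).trans (by linarith)
  have hM : 0 ≤ min 1 (Wd + |τ|) := le_min zero_le_one (by positivity)
  set M := min 1 (Wd + |τ|) with hMdef
  have k1 : |δ| * min 1 |δ| ≤ Wd / 2 * M := by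
    rw [hδ2] at hδ0 ⊢
    calc Wd / 2 * min 1 (Wd / 2) = Wd / 2 * min 1 |δ| := by rw [hδ2]
      _ ≤ Wd / 2 * M := mul_le_mul_of_nonneg_left m1 hδ0
  have k2 : |δ| * min 2 |τ| ≤ Wd * M := by
    calc |δ| * min 2 |τ| ≤ |δ| * (2 * M) := mul_le_mul_of_nonneg_left m2 hδ0
      _ = Wd * M := by rw [hδ2]; ring
  have k1' := mul_le_mul_of_nonneg_left k1 hpq
  have k2' := mul_le_mul_of_nonneg_left k2 hpq
  have hD : D ^ 2 * t ^ 2 = τ ^ 2 := by rw [hτ]; ring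
  rw [hD]
  calc (1 - p) * |ρ0| + p * |ρ1| + (2 * (p * (1 - p)) * (τ ^ 2 * min 1 |τ|) + p * (1 - p) * |δ| * min 2 |τ|)
      ≤ p * (1 - p) * (Wd / 2 * M) + p * (1 - p) * (Wd / 2 * M) +
        (2 * (p * (1 - p)) * (τ ^ 2 * min 1 |τ|) + p * (1 - p) * (Wd * M)) := by
        have k3 : p * (1 - p) * |δ| * min 2 |τ| ≤ p * (1 - p) * (Wd * M) := by
          rw [mul_assoc (p * (1 - p)) |δ|]
          exact k2'
        linarith
    _ = 2 * (p * (1 - p)) * (τ ^ 2 * min 1 |τ| + Wd * M) := by ring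

end Pool.Agent.Helper50.AM
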