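import Pool.Agent.Helper50.AM.Defs

/-!
# AM-02: the logarithm of `q`

`q (cons c s) = q s / (1 + r q c) = q s * (1 - pp r c)`, so `-log (q F)` is the sum over the roots
of `log (1 + r * q r c) = - log (1 - pp r c)`.

PROOF. All four by induction on `F` (`F = nil`: both sides `0`), with
`-log (q (cons c s)) = log (1 + r q c) + (- log (q s))` (`Real.log_div`).
(1) `pp r c = 1 - 1 / (1 + u) ≤ log (1 + u)`, `u = r q c` (`Real.one_sub_inv_le_log_of_pos`).
(2) `log (1 + r) / r * u ≤ log (1 + u)` for `0 ≤ u ≤ r`: concavity of `log` on `[1, 1 + r]`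
(`strictConcaveOn_log_Ioi.concaveOn`), with `1 + u = (1 - u / r) * 1 + (u / r) * (1 + r)`.
(3) the indicator term is `0`, or `pp r c ≥ η` and `η ≤ pp r c ≤ log (1 + u)`.
(4) if `η ≤ pp r c` then `pp r c ≤ r * q r c` gives `q r c ≥ η / r`.
-/

namespace Pool.Agent.Helper50.AM

open BF

theorem pp_le_log {r : ℝ} (hr : 0 < r) (c : BF) : pp r c ≤ Real.log (1 + r * q r c) := by
  have h1 := q_pos hr.le c
  have h2 : 0 < 1 + r * q r c := by positivity
  have h3 := Real.one_sub_inv_le_log_of_pos h2
  have h4 := one_sub_pp hr.le c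
  rw [one_div] at h4
  linarith

theorem neg_log_q_cons {r : ℝ} (hr : 0 < r) (c s : BF) :
    - Real.log (q r (cons c s)) = Real.log (1 + r * q r c) + - Real.log (q r s) := by
  have h1 := q_pos hr.le c
  have h2 := q_pos hr.le s
  have h3 : 0 < 1 + r * q r c := by positivity
  rw [q_cons, Real.log_div h2.ne' h3.ne']
  ring

theorem Top_pp_le {r : ℝ} (hr : 0 < r) (F : BF) : Top (pp r) F ≤ - Real.log (q r F) := by
  induction F with
  | nil => simp
  | cons c s _ ihs =>
    rw [neg_log_q_cons hr, Top_cons]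
    linarith [pp_le_log hr c]

theorem Top_u_le {r : ℝ} (hr : 0 < r) (F : BF) :
    Real.log (1 + r) / r * Top (fun c => r * q r c) F ≤ - Real.log (q r F) := by
  induction F with
  | nil => simp
  | cons c s _ ihs =>
    rw [neg_log_q_cons hr, Top_cons, mul_add]
    have h1 := q_pos hr.le c
    have h2 := q_le_one hr.le c
    have hm : (1 : ℝ) ∈ Set.Ioi (0 : ℝ) := by simp
    have hm' : (1 + r : ℝ) ∈ Set.Ioi (0 : ℝ) := by simp only [Set.mem_Ioi]; linarith
    have h3 := strictConcaveOn_log_Ioi.concaveOn.2 hm hm' (sub_nonneg.2 h2) h1.le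
      (by ring : 1 - q r c + q r c = 1)
    simp only [smul_eq_mul, Real.log_one, mul_zero, zero_add, mul_one] at h3
    have h4 : 1 - q r c + q r c * (1 + r) = 1 + r * q r c := by ring
    rw [h4] at h3
    have h5 : Real.log (1 + r) / r * (r * q r c) = q r c * Real.log (1 + r) := by
      field_simp
    linarith

theorem cnt_le {r : ℝ} (hr : 0 < r) {η : ℝ} (hη : 0 < η) (F : BF) :
    η * Top (fun c => if η ≤ pp r c then 1 else 0) F ≤ - Real.log (q r F) := by
  induction F with
  | nil => simp
  | cons c s _ ihs =>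
    rw [neg_log_q_cons hr, Top_cons, mul_add]
    have h1 := pp_le_log hr c
    have h2 := pp_nonneg hr.le c
    have h3 : η * (if η ≤ pp r c then (1 : ℝ) else 0) ≤ pp r c := by
      split_ifs with h
      · linarith
      · linarith
    linarith

theorem neg_log_q_le {r : ℝ} (hr : 0 < r) {η : ℝ} (hη : 0 < η) (c : BF) (h : η ≤ pp r c) :
    - Real.log (q r c) ≤ - Real.log (η / r) := by
  have h1 := q_pos hr.le c
  have h2 : pp r c ≤ r * q r c := by
    unfold pp
    rw [div_le_iff₀ (by positivity)]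
    nlinarith [mul_nonneg (mul_nonneg hr.le h1.le) (mul_nonneg hr.le h1.le)]
  have h3 : η / r ≤ q r c := by
    rw [div_le_iff₀ hr]
    linarith
  have h4 := Real.log_le_log (by positivity) h3
  linarith

end Pool.Agent.Helper50.AM
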