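import Pool.Agent.Helper50.AM.Cauchy
import Pool.Agent.Helper50.AM.LogQ

/-!
# AM-03: the one step inequality for `ww` (contraction for `r ≤ 11/10`)

PROOF. Write `p = pp r c`, `Q = q r c`, `U = Top (fun d => r * q r d) c`, `W = Top (ww r) c`,
`E = E r c`; `0 < Q ≤ 1`, `U, W ≥ 0`, `p = r Q / (1 + r Q)`, `1 - p = 1 / (1 + r Q)`.

(one_step_mul) `DD ^ 2 = (1 - E) ^ 2 ≤ 3/2 * E ^ 2 + 3` (since `(a - 2 b..)`: `(1-E)^2 = 1 - 2E + E^2`
and `-2 E ≤ E ^ 2 / 2 + 2`). With `E ^ 2 ≤ U * W` (AM-01) this gives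
`ww r c ≤ p (1 - p) (3/2 * U * W + 3)`.

(pU_le) `p (1 - p) U ≤ 3/5` for `r ≤ 11/10`: `p (1 - p) ≤ 1/4`, so it is clear if `U ≤ 12/5`.
If `U > 12/5`: `p (1 - p) ≤ r Q`, and by `Top_u_le` (AM-02) `Q ≤ exp (- ℓ U)`, `ℓ = log (1+r)/r`.
`ℓ ≥ 2 / (2 + r) ≥ 20/31` (`log (1+r) ≥ 2 r / (2 + r)`, Mathlib: `Real.le_log_one_add_of_nonneg`),
so `r Q U ≤ 11/10 * U * exp (- 20/31 * U)`; `U exp (-a U)` is decreasing for `U ≥ 1/a = 31/20`, so
this is `≤ 11/10 * 12/5 * exp (-48/31) ≤ 2.64 * 0.2126 < 0.57`. (Or: `exp (a U) ≥ ...`: with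
`y = 20/31 * U ≥ 48/31`, `exp y = exp (48/31) exp (y - 48/31) ≥ 4.6 (1 + y - 48/31) ≥ 4.6 / (48/31) * y`
as `y ≥ 48/31 ≥ 1`; and `exp (48/31) ≥ 4.6` from `exp 1 > 2.718`, `exp (17/31) ≥ 1 + 17/31 + (17/31)^2/2
+ (17/31)^3/6 > 1.72`.)

(one_step) combine: `ww r c ≤ 3/2 * 3/5 * W + 3 * 1/4`.
-/

namespace Pool.Agent.Helper50.AM

open BF

theorem one_step_mul {r : ℝ} (hr : 0 < r) (c : BF) :
    ww r c ≤ pp r c * (1 - pp r c) *
      (3 / 2 * Top (fun d => r * q r d) c * Top (ww r) c + 3) := by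
  have h1 := E_sq_le hr c
  have h2 := pp_pos hr c
  have h3 := pp_lt_one hr.le c
  unfold ww DD
  refine mul_le_mul_of_nonneg_left ?_ (mul_nonneg h2.le (by linarith))
  change (1 - E r c) ^ 2 ≤ 3 / 2 * Top (fun d => r * q r d) c * Top (ww r) c + 3
  nlinarith [sq_nonneg (E r c + 2)]

theorem oneStep_exp {y : ℝ} (hy : 48 / 31 ≤ y) : 341 / 120 * y ≤ Real.exp y := by
  have h1 : (23 / 5 : ℝ) ≤ Real.exp (48 / 31) := by
    have h2 := Real.exp_one_gt_d9
    have h3 := Real.quadratic_le_exp_of_nonneg (show (0 : ℝ) ≤ 17 / 31 by norm_num)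
    have h4 : Real.exp (48 / 31) = Real.exp 1 * Real.exp (17 / 31) := by
      rw [← Real.exp_add]
      norm_num
    rw [h4]
    nlinarith [Real.exp_pos (17 / 31 : ℝ)]
  have h5 : Real.exp y = Real.exp (48 / 31) * Real.exp (y - 48 / 31) := by
    rw [← Real.exp_add]
    congr 1
    ring
  have h6 := Real.add_one_le_exp (y - 48 / 31)
  have h7 : 23 / 5 * (y - 48 / 31 + 1) ≤ Real.exp (48 / 31) * Real.exp (y - 48 / 31) :=
    mul_le_mul h1 h6 (by linarith) (Real.exp_pos _).le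
  rw [h5]
  linarith

theorem pU_le {r : ℝ} (hr : 0 < r) (hr1 : r ≤ 11 / 10) (c : BF) :
    pp r c * (1 - pp r c) * Top (fun d => r * q r d) c ≤ 3 / 5 := by
  have h2 := pp_pos hr c
  have h3 := pp_lt_one hr.le c
  have hQ := q_pos hr.le c
  obtain ⟨U, hU⟩ : ∃ U, U = Top (fun d => r * q r d) c := ⟨_, rfl⟩
  have hU0 : 0 ≤ U := by
    rw [hU]
    exact Top_nonneg (fun d => (mul_pos hr (q_pos hr.le d)).le) c
  have h4 := Top_u_le hr c
  rw [← hU] at h4 ⊢
  rcases le_or_gt U (12 / 5) with hU1 | hU1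
  · have h5 : pp r c * (1 - pp r c) ≤ 1 / 4 := by nlinarith [sq_nonneg (pp r c - 1 / 2)]
    have h6 : 0 ≤ pp r c * (1 - pp r c) := mul_nonneg h2.le (by linarith)
    nlinarith
  · have h5 : pp r c ≤ r * q r c := by
      unfold pp
      exact div_le_self (mul_pos hr hQ).le (by linarith [mul_pos hr hQ])
    have h6 : pp r c * (1 - pp r c) ≤ r * q r c := by nlinarith
    have h7 : 20 / 31 ≤ Real.log (1 + r) / r := by
      have h8 := Real.le_log_one_add_of_nonneg hr.le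
      rw [le_div_iff₀ hr]
      refine le_trans ?_ h8
      rw [le_div_iff₀ (by linarith)]
      nlinarith
    have h8 : Real.log (q r c) ≤ -(20 / 31 * U) := by
      have := mul_le_mul_of_nonneg_right h7 hU0
      linarith
    have h9 : q r c ≤ Real.exp (-(20 / 31 * U)) := by
      rw [← Real.log_le_iff_le_exp hQ]
      exact h8
    have h10 := oneStep_exp (y := 20 / 31 * U) (by linarith)
    have h11 : Real.exp (-(20 / 31 * U)) * Real.exp (20 / 31 * U) = 1 := by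
      rw [← Real.exp_add, neg_add_cancel, Real.exp_zero]
    have h12 : q r c * (341 / 120 * (20 / 31 * U)) ≤ 1 := by
      rw [← h11]
      exact mul_le_mul h9 h10 (by positivity) (Real.exp_pos _).le
    have h13 : pp r c * (1 - pp r c) * U ≤ r * q r c * U := mul_le_mul_of_nonneg_right h6 hU0
    have h14 : r * q r c * U ≤ 11 / 10 * (q r c * U) := by
      rw [mul_assoc]
      exact mul_le_mul_of_nonneg_right hr1 (mul_nonneg hQ.le hU0)
    linarith

theorem one_step {r : ℝ} (hr : 0 < r) (hr1 : r ≤ 11 / 10) (c : BF) :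
    ww r c ≤ 9 / 10 * Top (ww r) c + 3 / 4 := by
  have h1 := one_step_mul hr c
  have h2 := pU_le hr hr1 c
  have h3 : 0 ≤ Top (ww r) c := Top_nonneg (ww_nonneg hr.le) c
  have h5 : pp r c * (1 - pp r c) ≤ 1 / 4 := by nlinarith [sq_nonneg (pp r c - 1 / 2)]
  have h6 := mul_le_mul_of_nonneg_right h2 h3
  nlinarith

end Pool.Agent.Helper50.AM
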