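import Pool.Agent.Helper50.AM.BigDl
import Pool.Agent.Helper50.AM.LocTwo

/-!
# AM-13: the total error is small (fugacity 1)

PROOF. Let `y c = pp 1 c * |dl 1 c|`, `n = N F ≥ 1`, `|t| ≤ A / √n`, so `t² ≤ A² / n`. By
`locErr_le` and `p (1-p) ≤ p`, `p (1 - p) D^2 = ww`, `|V1 - V0| = |dl|`:
`loc t c ≤ 2 t² (ww 1 c * min 1 |D t| + y c * min 1 (|dl 1 c| t² + |D t|))`, `D = DD 1 c`.
Choose `ε₁` with `2 A² * 15/2 * ε₁ ≤ ε/8`, `η ≤ η(ε₁)` from `small_p` with `2 A² * 18 η ≤ ε/8`, and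
`ε₃ = ε / (60 A² + 1)`..., so that `2 A² * 15 * ε₃ ≤ ε/2`.
(a) If `pp 1 c < η`: `loc t c ≤ 2 t² (ww + y) ≤ 2 t² (ε₁ Top ww c + 3 η + η Top (ww + y) c)`
(`small_p`, `dl_le`).
(b) If `η ≤ pp 1 c`: `D² = ww / (p (1-p)) ≤ 2 (C + ε₂ N c) / η` (`1 - p ≥ 1/2`, `big_p`),
`|dl 1 c| ≤ C + ε₂ N c` (`big_dl`), and `N c ≤ n`; so
`|dl| t² + |D t| ≤ (C + ε₂ n) A²/n + A √(2 (C + ε₂ n) / (η n)) ≤ ε₃` if `ε₂` is small (depending on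
`A, η, ε₃`) and `n ≥ N₀`. So `loc t c ≤ 2 t² ε₃ (ww + y)`.
In both cases `loc t c ≤ 2 t² (ε₁ Top ww c + 3 η + η Top (ww + y) c + ε₃ (ww c + y c))`; sum over
the vertices (induction for the restriction `N c ≤ n`: prove
`∀ F, (∀ c, N c ≤ n → g c ≤ h c) → N F ≤ n → Tot g F ≤ Tot h F`), with `Tot (Top g) ≤ Tot g`,
`Tot ww ≤ 15/2 n`, `Tot y ≤ 15/2 n`: total `≤ 2 A² (15/2 ε₁ + 3 η + 15 η + 15 ε₃) ≤ ε`.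
-/

namespace Pool.Agent.Helper50.AM

open BF

theorem tot_loc {A ε : ℝ} (hA : 0 < A) (hε : 0 < ε) : ∃ N₀ : ℕ, ∀ F : BF, N₀ ≤ N F →
    ∀ t : ℝ, |t| ≤ A / Real.sqrt (N F) → Tot (loc t) F ≤ ε := by
  sorry

end Pool.Agent.Helper50.AM
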