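import Pool.Agent.Helper50.AM.OneStep

/-!
# AM-04: linear variance for `r ≤ 11/10`, and the variances are at most `Tot ww`

PROOF. (1) Sum `one_step` over all vertices (`Tot_mono`, `Tot_add`, `Tot_mul`, `Tot_const`):
`T := Tot (ww r) F ≤ 9/10 * Tot (fun c => Top (ww r) c) F + 3/4 * N F`, and
`Tot (fun c => Top (ww r) c) F = T - Top (ww r) F ≤ T` (`Tot_Top`, `Top_nonneg`). So `T/10 ≤ 3/4 N`.
(2), (3) simultaneous induction: `VM (cons c s) = (1-p) VM c + p VA c + ww c + VM s` with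
`(1-p) VM c + p VA c ≤ Tot ww c`, `VA (cons c s) = VM c + VA s`; `ww ≥ 0`.
-/

namespace Pool.Agent.Helper50.AM

open BF

theorem Tot_ww_le {r : ℝ} (hr : 0 < r) (hr1 : r ≤ 11 / 10) (F : BF) :
    Tot (ww r) F ≤ 15 / 2 * N F := by
  have h1 := Tot_mono (fun c => one_step hr hr1 c) F
  rw [Tot_add (fun c => 9 / 10 * Top (ww r) c) (fun _ => 3 / 4) F,
    Tot_mul (9 / 10) (fun c => Top (ww r) c) F, Tot_const] at h1
  have h2 := Tot_Top (ww r) F
  have h3 := Top_nonneg (ww_nonneg hr.le) F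
  linarith

theorem VM_VA_le {r : ℝ} (hr : 0 < r) (F : BF) :
    (0 ≤ VM r F ∧ VM r F ≤ Tot (ww r) F) ∧ (0 ≤ VA r F ∧ VA r F ≤ Tot (ww r) F) := by
  induction F with
  | nil => simp
  | cons c s ihc ihs =>
    obtain ⟨⟨a1, a2⟩, a3, a4⟩ := ihc
    obtain ⟨⟨b1, b2⟩, b3, b4⟩ := ihs
    have hp := pp_nonneg hr.le c
    have hp1 := pp_lt_one hr.le c
    have hw := ww_nonneg hr.le c
    have h1 : 0 ≤ (1 - pp r c) * VM r c := mul_nonneg (by linarith) a1
    have h2 : 0 ≤ pp r c * VA r c := mul_nonneg hp a3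
    have h3 : (1 - pp r c) * VM r c ≤ (1 - pp r c) * Tot (ww r) c :=
      mul_le_mul_of_nonneg_left a2 (by linarith)
    have h4 : pp r c * VA r c ≤ pp r c * Tot (ww r) c := mul_le_mul_of_nonneg_left a4 hp
    rw [VM_cons, VA_cons, Tot_cons]
    refine ⟨⟨by linarith, by nlinarith⟩, by linarith, by linarith⟩

theorem VM_le {r : ℝ} (hr : 0 < r) (hr1 : r ≤ 11 / 10) (F : BF) : VM r F ≤ 15 / 2 * N F :=
  (VM_VA_le hr F).1.2.trans (Tot_ww_le hr hr1 F)

end Pool.Agent.Helper50.AM
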