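import Pool.Agent.Helper50.AM.DGen
import Pool.Agent.Helper50.AM.TotW

/-!
# AM-10: the variance is `o(n ^ 2)`, uniformly for fugacities `≤ R`

PROOF. Let `θ = R / (1 + R)` and define `hF : BF → ℝ` by `hF nil = 0`,
`hF (cons c s) = (1 + θ * hF c) + hF s`; so `hF = Top h` with `h c = 1 + θ * hF c ≥ 1`.
(1) `|DD r c| ≤ h c`: from `|E r F| ≤ θ * hF F` (induction: `|pp * DD| ≤ θ (1 + θ hF c)`).
(2) `Tot h F ≤ (1 + R) * N F`: `Tot h F = N F + θ * Tot (Top h) F ≤ N F + θ * Tot h F`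
(`Tot_Top`), and `1 / (1 - θ) = 1 + R`.
(3) Given `ε`, put `ε₁ = ε / (4 (1 + R))`, and `C` from `DD_gen` with `ε₁` and `η = ε₁`. For every
`c`: `pp r c * |DD r c| ≤ C + ε₁ * (1 + N c)` (if `pp < ε₁`: `≤ ε₁ (1 + N c)` by `DD_le_N`;
otherwise `pp ≤ 1` and `DD_gen`). So `ww r c = pp (1 - pp) DD^2 ≤ (C + ε₁ (1 + N c)) * h c`.
(4) For the vertices of `F` one has `1 + N c ≤ N F`; so (prove by induction: if `B ≥ 0` and
`ww r c ≤ (C + ε₁ (1 + N c)) h c` for all `c` then `Tot (ww r) F ≤ (C + ε₁ N F) * Tot h F`)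
`Tot (ww r) F ≤ (C + ε₁ * N F) * (1 + R) * N F ≤ ε * (N F)^2` if `C ≤ ε₁ * N F`... (`2 ε₁ (1+R) = ε/2`).
`VM r F ≤ Tot (ww r) F` (`VM_VA_le`).
-/

namespace Pool.Agent.Helper50.AM

open BF

theorem V_gen {R ε : ℝ} (hR : 0 < R) (hε : 0 < ε) : ∃ N₀ : ℕ, ∀ r : ℝ, 0 < r → r ≤ R →
    ∀ F : BF, N₀ ≤ N F → VM r F ≤ ε * (N F : ℝ) ^ 2 := by
  sorry

end Pool.Agent.Helper50.AM
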